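import Pool.Agent.H419.SP.Weight

/-! Weighted and natural mean values. -/

set_option autoImplicit false
set_option linter.unusedSectionVars false

namespace Pool.Agent.H419.SP

open NumberField IsDedekindDomain Filter Topology MeasureTheory Finset
open Pool.Agent.W540.BE (upto nm mem_upto two_le_nm nf fiber_finite sum_nf)
open Pool.Agent.Helper644_ST (card_ratio card_pos_ev)
open Pool.Agent.H419.BS (U U_le U_mono U_atTop pnt q mean mean_eq meanAll meanAll_eq)

/-- Abel summation -/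
theorem abel (g : ℕ → ℝ) (t : ℕ → ℂ) (N : ℕ) :
    ∑ k ∈ Icc 1 N, (g k : ℂ) * t k = (g N : ℂ) * ∑ k ∈ Icc 1 N, t k -
      ∑ k ∈ Ico 1 N, ((g (k + 1) - g k : ℝ) : ℂ) * ∑ j ∈ Icc 1 k, t j := by
  induction N with
  | zero => simp
  | succ N ih =>
    rw [← Finset.insert_Icc_right_eq_Icc_add_one (by omega), Finset.sum_insert (by simp),
      Finset.sum_insert (by simp), ih]
    rcases Nat.eq_zero_or_pos N with h | h
    · subst h
      simp
    · rw [Finset.sum_Ico_succ_top (by omega : 1 ≤ N)]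
      push_cast
      ring

/-- the telescoping sum -/
theorem tele (g : ℕ → ℝ) (N : ℕ) (hN : 1 ≤ N) :
    ∑ k ∈ Ico 1 N, (g (k + 1) - g k) = g N - g 1 := by
  induction N, hN using Nat.le_induction with
  | base => simp
  | succ N hN ih =>
    rw [Finset.sum_Ico_succ_top hN, ih]
    ring

variable {K : Type} [Field K] [NumberField K] {τ : ℝ}

/-- the sum over the primes -/
noncomputable def TT (φ : HeightOneSpectrum (𝓞 K) → ℂ) (N : ℕ) : ℂ := ∑ v ∈ upto K N, φ v

theorem TT_eq (φ : HeightOneSpectrum (𝓞 K) → ℂ) (N : ℕ) :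
    TT φ N = ∑ k ∈ Icc 1 N, nf φ k := (sum_nf φ N).symm

/-- the weighted sum with a weight depending on the norm -/
theorem sum_weight (g : ℕ → ℝ) (φ : HeightOneSpectrum (𝓞 K) → ℂ) (N : ℕ) :
    ∑ v ∈ upto K N, (g (nm K v) : ℂ) * φ v = (g N : ℂ) * TT φ N -
      ∑ k ∈ Ico 1 N, ((g (k + 1) - g k : ℝ) : ℂ) * TT φ k := by
  have h1 := sum_nf (F := K) (fun v => (g (nm K v) : ℂ) * φ v) N
  have h2 : ∀ k, nf (F := K) (fun v => (g (nm K v) : ℂ) * φ v) k = (g k : ℂ) * nf φ k := by
    intro k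
    rw [nf, nf, Finset.mul_sum]
    refine Finset.sum_congr rfl fun v hv => ?_
    rw [Set.Finite.mem_toFinset, Set.mem_ofPred_eq] at hv
    rw [hv]
  rw [← h1, Finset.sum_congr rfl fun k _ => h2 k, abel]
  simp only [← TT_eq]

theorem TT_one (N : ℕ) : TT (fun _ : HeightOneSpectrum (𝓞 K) => 1) N = (U K N : ℂ) := by
  unfold TT U
  simp

/-- the weighted sum, real version for the constant function -/
theorem sum_weight_one (g : ℕ → ℝ) (N : ℕ) :
    ∑ v ∈ upto K N, g (nm K v) = g N * U K N - ∑ k ∈ Ico 1 N, (g (k + 1) - g k) * U K k := by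
  have h := sum_weight (K := K) g (fun _ => 1) N
  simp only [TT_one, mul_one] at h
  exact_mod_cast h

theorem eps_bound {S : ℕ → ℂ} {W : ℕ → ℝ} (hW : ∀ N, 0 ≤ W N) (hWpos : ∀ᶠ N in atTop, 0 < W N)
    (h : Tendsto (fun N => S N / (W N : ℂ)) atTop (𝓝 0)) {ε : ℝ} (hε : 0 < ε) :
    ∃ C : ℝ, 0 ≤ C ∧ ∀ N, ‖S N‖ ≤ ε * W N + C := by
  obtain ⟨N₀, hN₀⟩ := eventually_atTop.1
    (((Metric.tendsto_nhds.1 h) ε hε).and hWpos)
  refine ⟨∑ k ∈ range N₀, ‖S k‖, Finset.sum_nonneg fun _ _ => norm_nonneg _, fun N => ?_⟩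
  rcases lt_or_ge N N₀ with hN | hN
  · have h1 : ‖S N‖ ≤ ∑ k ∈ range N₀, ‖S k‖ :=
      Finset.single_le_sum (f := fun k => ‖S k‖) (fun _ _ => norm_nonneg _)
        (Finset.mem_range.2 hN)
    have h2 : 0 ≤ ε * W N := mul_nonneg hε.le (hW N)
    linarith
  · obtain ⟨h1, h2⟩ := hN₀ N hN
    rw [dist_zero_right, norm_div, Complex.norm_real, Real.norm_of_nonneg h2.le,
      div_lt_iff₀ h2] at h1
    have h3 : 0 ≤ ∑ k ∈ range N₀, ‖S k‖ := Finset.sum_nonneg fun _ _ => norm_nonneg _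
    linarith

theorem U_nonneg (N : ℕ) : 0 ≤ U K N := by unfold U; positivity

theorem weight_nonneg (N : ℕ) : 0 ≤ weight K τ N := by
  rw [weight_eq]
  exact Finset.sum_nonneg fun v _ => (rad_pos v).le

theorem weight_mono {M N : ℕ} (h : M ≤ N) : weight K τ M ≤ weight K τ N := by
  rw [weight_eq, weight_eq]
  exact Finset.sum_le_sum_of_subset_of_nonneg
    (fun v hv => mem_upto.2 ((mem_upto.1 hv).trans h)) fun v _ _ => (rad_pos v).le

theorem weight_atTop (h0 : 0 ≤ τ) (h1 : τ < 1) : Tendsto (weight K τ) atTop atTop := by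
  have h2 := MM_atTop (K := K) h0 h1
  have h3 : ∀ N, 1 / 2 * MM K τ N ≤ weight K τ N := by
    intro N
    rw [weight_eq]
    unfold MM
    rw [Finset.mul_sum]
    refine Finset.sum_le_sum fun v _ => ?_
    have := m_le (rad τ v)
    linarith
  exact tendsto_atTop_mono h3 (h2.const_mul_atTop (by norm_num))

/-- from the natural mean value to the weighted mean value -/
theorem wmean_of_mean (h0 : 0 ≤ τ) (h1 : τ < 1) {φ : HeightOneSpectrum (𝓞 K) → ℂ}
    (h : Tendsto (fun N => TT φ N / (U K N : ℂ)) atTop (𝓝 0)) :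
    Tendsto (wmean τ φ) atTop (𝓝 0) := by
  have hWtop := weight_atTop (K := K) h0 h1
  rw [Metric.tendsto_atTop']
  intro ε hε
  obtain ⟨C, hC0, hC⟩ := eps_bound (U_nonneg (K := K)) (card_pos_ev (F := K)) h
    (show 0 < ε / 2 by positivity)
  obtain ⟨N₀, hN₀⟩ := eventually_atTop.1 ((hWtop.eventually_gt_atTop (2 * C / ε)).and
    (eventually_ge_atTop 1))
  refine ⟨N₀, fun N hN => ?_⟩
  obtain ⟨h2, hN1⟩ := hN₀ N hN.le
  have hWpos : 0 < weight K τ N := lt_of_le_of_lt (by positivity) h2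
  rw [dist_zero_right, wmean_eq, norm_div, Complex.norm_real, Real.norm_of_nonneg hWpos.le,
    div_lt_iff₀ hWpos]
  set g : ℕ → ℝ := fun n => (n : ℝ) ^ (-τ) with hg
  have hg0 : ∀ n, 0 ≤ g n := fun n => by positivity
  have hga : ∀ k, 1 ≤ k → g (k + 1) ≤ g k := by
    intro k hk
    have : (0 : ℝ) < k := by exact_mod_cast hk
    refine Real.rpow_le_rpow_of_nonpos this ?_ (by linarith)
    push_cast
    linarith
  have e1 : WS τ φ N = (g N : ℂ) * TT φ N -
      ∑ k ∈ Ico 1 N, ((g (k + 1) - g k : ℝ) : ℂ) * TT φ k := by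
    rw [← sum_weight]
    rfl
  have e2 : weight K τ N = g N * U K N - ∑ k ∈ Ico 1 N, (g (k + 1) - g k) * U K k := by
    rw [← sum_weight_one, weight_eq]
    rfl
  have h3 : ‖WS τ φ N‖ ≤ ε / 2 * weight K τ N + C := by
    rw [e1]
    have h4 : ‖∑ k ∈ Ico 1 N, ((g (k + 1) - g k : ℝ) : ℂ) * TT φ k‖ ≤
        ∑ k ∈ Ico 1 N, (g k - g (k + 1)) * (ε / 2 * U K k + C) := by
      refine (norm_sum_le _ _).trans (Finset.sum_le_sum fun k hk => ?_)
      have hk1 : 1 ≤ k := (Finset.mem_Ico.1 hk).1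
      rw [norm_mul, Complex.norm_real, Real.norm_eq_abs, abs_of_nonpos (by linarith [hga k hk1]),
        neg_sub]
      exact mul_le_mul_of_nonneg_left (hC k) (by linarith [hga k hk1])
    have h5 : ‖(g N : ℂ) * TT φ N‖ ≤ g N * (ε / 2 * U K N + C) := by
      rw [norm_mul, Complex.norm_real, Real.norm_of_nonneg (hg0 N)]
      exact mul_le_mul_of_nonneg_left (hC N) (hg0 N)
    have h6 : ∑ k ∈ Ico 1 N, (g k - g (k + 1)) * (ε / 2 * U K k + C) =
        -(ε / 2) * ∑ k ∈ Ico 1 N, (g (k + 1) - g k) * U K k -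
          C * ∑ k ∈ Ico 1 N, (g (k + 1) - g k) := by
      rw [Finset.mul_sum, Finset.mul_sum, ← Finset.sum_sub_distrib]
      exact Finset.sum_congr rfl fun k _ => by ring
    have h7 := tele g N hN1
    have hg1 : g 1 = 1 := by simp [hg]
    calc _ ≤ ‖(g N : ℂ) * TT φ N‖ +
          ‖∑ k ∈ Ico 1 N, ((g (k + 1) - g k : ℝ) : ℂ) * TT φ k‖ := norm_sub_le _ _
      _ ≤ g N * (ε / 2 * U K N + C) +
          ∑ k ∈ Ico 1 N, (g k - g (k + 1)) * (ε / 2 * U K k + C) := add_le_add h5 h4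
      _ = ε / 2 * weight K τ N + C := by
          rw [h6, h7, hg1, e2]
          ring
  have h8 : C < ε / 2 * weight K τ N := by
    rw [div_lt_iff₀ hε] at h2
    linarith
  linarith

/-! ### The regularity of the counting function -/

theorem hh_tend : Tendsto (fun N : ℕ => U K N * Real.log N / N) atTop (𝓝 1) := by
  have h := (card_ratio (F := K)).mul pnt
  rw [one_mul] at h
  refine h.congr' ?_
  have h2 : Tendsto (fun N : ℕ => (Nat.primeCounting N : ℝ)) atTop atTop :=
    tendsto_natCast_atTop_atTop.comp Nat.tendsto_primeCounting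
  filter_upwards [h2.eventually_gt_atTop 0] with N hN
  unfold U
  field_simp

theorem half_tend : Tendsto (fun N : ℕ => ((N / 2 : ℕ) : ℝ) / N) atTop (𝓝 (1 / 2)) := by
  have h1 : Tendsto (fun N : ℕ => 1 / 2 - 1 / (N : ℝ)) atTop (𝓝 (1 / 2 - 0)) :=
    tendsto_const_nhds.sub (tendsto_one_div_atTop_nhds_zero_nat)
  rw [sub_zero] at h1
  refine tendsto_of_tendsto_of_tendsto_of_le_of_le' h1 tendsto_const_nhds ?_ ?_
  · filter_upwards [eventually_gt_atTop 0] with N hN
    have hN0 : (0 : ℝ) < N := by exact_mod_cast hN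
    rw [le_div_iff₀ hN0]
    have h2 : N ≤ 2 * (N / 2) + 1 := by omega
    have h3 : (N : ℝ) ≤ 2 * ((N / 2 : ℕ) : ℝ) + 1 := by exact_mod_cast h2
    have e : (1 / 2 - 1 / (N : ℝ)) * N = N / 2 - 1 := by field_simp
    rw [e]
    linarith
  · filter_upwards [eventually_gt_atTop 0] with N hN
    have hN0 : (0 : ℝ) < N := by exact_mod_cast hN
    rw [div_le_iff₀ hN0]
    have h2 : 2 * (N / 2) ≤ N := by omega
    have h3 : 2 * ((N / 2 : ℕ) : ℝ) ≤ N := by exact_mod_cast h2
    linarith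

theorem half_atTop : Tendsto (fun N : ℕ => N / 2) atTop atTop :=
  Nat.tendsto_div_const_atTop (by norm_num)

theorem log_half : Tendsto (fun N : ℕ => Real.log N / Real.log ((N / 2 : ℕ) : ℝ)) atTop (𝓝 1) := by
  have hlogtop : Tendsto (fun N : ℕ => Real.log ((N / 2 : ℕ) : ℝ)) atTop atTop :=
    Real.tendsto_log_atTop.comp (tendsto_natCast_atTop_atTop.comp half_atTop)
  have h1 : Tendsto (fun N : ℕ => Real.log (((N / 2 : ℕ) : ℝ) / N)) atTop
      (𝓝 (Real.log (1 / 2))) :=
    (Real.continuousAt_log (by norm_num)).tendsto.comp half_tend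
  have h2 : Tendsto (fun N : ℕ => 1 - Real.log (((N / 2 : ℕ) : ℝ) / N) /
      Real.log ((N / 2 : ℕ) : ℝ)) atTop (𝓝 (1 - 0)) :=
    tendsto_const_nhds.sub (h1.div_atTop hlogtop)
  rw [sub_zero] at h2
  refine h2.congr' ?_
  filter_upwards [eventually_ge_atTop 2, hlogtop.eventually_gt_atTop 0] with N hN hlog
  have hN0 : (0 : ℝ) < N := by exact_mod_cast (by omega : 0 < N)
  have hM0 : (0 : ℝ) < ((N / 2 : ℕ) : ℝ) := by exact_mod_cast (by omega : 0 < N / 2)
  rw [Real.log_div hM0.ne' hN0.ne']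
  field_simp
  ring

theorem U_half : Tendsto (fun N : ℕ => U K (N / 2) / U K N) atTop (𝓝 (1 / 2)) := by
  have h1 := (hh_tend (K := K)).comp half_atTop
  have h2 := h1.div (hh_tend (K := K)) one_ne_zero
  have h3 := (h2.mul log_half).mul half_tend
  rw [div_one, one_mul, one_mul] at h3
  refine h3.congr' ?_
  have hlogtop : Tendsto (fun N : ℕ => Real.log ((N / 2 : ℕ) : ℝ)) atTop atTop :=
    Real.tendsto_log_atTop.comp (tendsto_natCast_atTop_atTop.comp half_atTop)
  filter_upwards [eventually_ge_atTop 2, hlogtop.eventually_gt_atTop 0,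
    card_pos_ev (F := K)] with N hN hlog hU
  have hN0 : (0 : ℝ) < N := by exact_mod_cast (by omega : 0 < N)
  have hM0 : (0 : ℝ) < ((N / 2 : ℕ) : ℝ) := by exact_mod_cast (by omega : 0 < N / 2)
  have hlogN : 0 < Real.log N := Real.log_pos (by exact_mod_cast (by omega : 1 < N))
  have hU' : 0 < U K N := hU
  simp only [Function.comp_apply, Pi.div_apply]
  field_simp

/-- **The weighted count is not large.** -/
theorem weight_le (h0 : 0 ≤ τ) (h1 : τ < 1) : ∃ C : ℝ, 0 < C ∧ ∀ N : ℕ,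
    (N : ℝ) ^ τ * weight K τ N ≤ C * U K N := by
  set θ : ℝ := (1 + 2 ^ (τ - 1)) / 2 with hθ
  have h2τ : (2 : ℝ) ^ (τ - 1) < 1 := Real.rpow_lt_one_of_one_lt_of_neg (by norm_num) (by linarith)
  have h2τ0 : (0 : ℝ) < (2 : ℝ) ^ (τ - 1) := by positivity
  have hθ1 : θ < 1 := by rw [hθ]; linarith
  have hθ2 : (2 : ℝ) ^ (τ - 1) < θ := by rw [hθ]; linarith
  have hlim : Tendsto (fun N : ℕ => (((N / 2 : ℕ) : ℝ) / N) ^ (-τ) * (U K (N / 2) / U K N)) atTop
      (𝓝 ((1 / 2 : ℝ) ^ (-τ) * (1 / 2))) :=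
    (half_tend.rpow_const (Or.inl (by norm_num))).mul U_half
  have e1 : (1 / 2 : ℝ) ^ (-τ) * (1 / 2) = 2 ^ (τ - 1) := by
    rw [one_div, Real.inv_rpow (by norm_num), ← Real.rpow_neg (by norm_num), neg_neg,
      Real.rpow_sub (by norm_num), Real.rpow_one]
    rfl
  rw [e1] at hlim
  obtain ⟨N₀, hN₀⟩ := eventually_atTop.1 (((hlim.eventually_lt_const hθ2).and
    (card_pos_ev (F := K))).and (eventually_ge_atTop 2))
  set C : ℝ := max ((N₀ : ℝ) ^ τ + 1) (2 ^ τ / (1 - θ)) with hC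
  have hCpos : 0 < C := lt_of_lt_of_le (by positivity) (le_max_left _ _)
  refine ⟨C, hCpos, fun N => ?_⟩
  induction N using Nat.strong_induction_on with
  | _ N ih =>
    rcases lt_or_ge N N₀ with hN | hN
    · have h3 : weight K τ N ≤ U K N := by
        rw [weight_eq]
        unfold U
        calc ∑ v ∈ upto K N, rad τ v ≤ ∑ _v ∈ upto K N, (1 : ℝ) :=
              Finset.sum_le_sum fun v _ => rad_le_one h0 v
          _ = _ := by simp
      have h4 : (N : ℝ) ^ τ ≤ C := by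
        refine le_trans ?_ (le_max_left _ _)
        have : (N : ℝ) ^ τ ≤ (N₀ : ℝ) ^ τ :=
          Real.rpow_le_rpow (by positivity) (by exact_mod_cast hN.le) h0
        linarith
      exact mul_le_mul h4 h3 (weight_nonneg N) hCpos.le
    · obtain ⟨⟨h3, h4⟩, hN2⟩ := hN₀ N hN
      have hU : 0 < U K N := h4
      have hNR : (0 : ℝ) < N := by exact_mod_cast (by omega : 0 < N)
      have hMR : (0 : ℝ) < ((N / 2 : ℕ) : ℝ) := by exact_mod_cast (by omega : 0 < N / 2)
      have ih' := ih (N / 2) (by omega)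
      have hdiff : weight K τ N - weight K τ (N / 2) ≤ 2 ^ τ * (N : ℝ) ^ (-τ) * U K N := by
        classical
        have hsub : upto K (N / 2) ⊆ upto K N := fun v hv =>
          mem_upto.2 ((mem_upto.1 hv).trans (Nat.div_le_self _ _))
        rw [weight_eq, weight_eq]
        have e2 : ∑ v ∈ upto K N, rad τ v - ∑ v ∈ upto K (N / 2), rad τ v =
            ∑ v ∈ upto K N \ upto K (N / 2), rad τ v := by
          rw [sub_eq_iff_eq_add]
          exact (Finset.sum_sdiff hsub).symm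
        rw [e2]
        have h5 : ∀ v ∈ upto K N \ upto K (N / 2), rad τ v ≤ 2 ^ τ * (N : ℝ) ^ (-τ) := by
          intro v hv
          rw [Finset.mem_sdiff, mem_upto, mem_upto, not_le] at hv
          have h6 : N ≤ 2 * nm K v := by omega
          have h7 : (N : ℝ) / 2 ≤ nm K v := by
            rw [div_le_iff₀ (by norm_num)]
            have : (N : ℝ) ≤ 2 * (nm K v : ℝ) := by exact_mod_cast h6
            linarith
          have h8 : rad τ v ≤ ((N : ℝ) / 2) ^ (-τ) :=
            Real.rpow_le_rpow_of_nonpos (by positivity) h7 (by linarith)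
          refine h8.trans (le_of_eq ?_)
          rw [Real.div_rpow hNR.le (by norm_num), Real.rpow_neg (by norm_num : (0 : ℝ) ≤ 2),
            div_inv_eq_mul, mul_comm]
        refine (Finset.sum_le_card_nsmul _ _ _ h5).trans ?_
        rw [nsmul_eq_mul, mul_comm]
        refine mul_le_mul_of_nonneg_left ?_ (by positivity)
        unfold U
        exact_mod_cast Finset.card_le_card Finset.sdiff_subset
      have hNN : (N : ℝ) ^ τ * (N : ℝ) ^ (-τ) = 1 := by
        rw [← Real.rpow_add hNR, add_neg_cancel, Real.rpow_zero]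
      have h5 : (N : ℝ) ^ τ * weight K τ (N / 2) ≤ C * θ * U K N := by
        have e3 : (N : ℝ) ^ τ * weight K τ (N / 2) = (((N / 2 : ℕ) : ℝ) / N) ^ (-τ) *
            ((((N / 2 : ℕ) : ℝ)) ^ τ * weight K τ (N / 2)) := by
          have e4 : (((N / 2 : ℕ) : ℝ) / N) ^ (-τ) * (((N / 2 : ℕ) : ℝ)) ^ τ = (N : ℝ) ^ τ := by
            rw [Real.div_rpow hMR.le hNR.le, Real.rpow_neg hMR.le, Real.rpow_neg hNR.le]
            field_simp
          rw [← mul_assoc, e4]
        rw [e3]
        calc (((N / 2 : ℕ) : ℝ) / N) ^ (-τ) * ((((N / 2 : ℕ) : ℝ)) ^ τ * weight K τ (N / 2)) ≤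
              (((N / 2 : ℕ) : ℝ) / N) ^ (-τ) * (C * U K (N / 2)) :=
              mul_le_mul_of_nonneg_left ih' (by positivity)
          _ = C * ((((N / 2 : ℕ) : ℝ) / N) ^ (-τ) * (U K (N / 2) / U K N)) * U K N := by
              field_simp
          _ ≤ C * θ * U K N := by
              refine mul_le_mul_of_nonneg_right ?_ hU.le
              exact mul_le_mul_of_nonneg_left h3.le hCpos.le
      have h6 : (N : ℝ) ^ τ * (weight K τ N - weight K τ (N / 2)) ≤ 2 ^ τ * U K N := by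
        calc (N : ℝ) ^ τ * (weight K τ N - weight K τ (N / 2)) ≤
              (N : ℝ) ^ τ * (2 ^ τ * (N : ℝ) ^ (-τ) * U K N) :=
              mul_le_mul_of_nonneg_left hdiff (by positivity)
          _ = ((N : ℝ) ^ τ * (N : ℝ) ^ (-τ)) * (2 ^ τ * U K N) := by ring
          _ = _ := by rw [hNN, one_mul]
      have h7 : 2 ^ τ ≤ C * (1 - θ) := by
        have h8 : 2 ^ τ / (1 - θ) ≤ C := le_max_right _ _
        rwa [div_le_iff₀ (by linarith)] at h8
      have h9 : 2 ^ τ * U K N ≤ C * (1 - θ) * U K N := mul_le_mul_of_nonneg_right h7 hU.le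
      have e5 : (N : ℝ) ^ τ * weight K τ N = (N : ℝ) ^ τ * weight K τ (N / 2) +
          (N : ℝ) ^ τ * (weight K τ N - weight K τ (N / 2)) := by ring
      rw [e5]
      have e6 : C * U K N = C * θ * U K N + C * (1 - θ) * U K N := by ring
      rw [e6]
      linarith

/-- from the weighted mean value to the natural mean value -/
theorem mean_of_wmean (h0 : 0 ≤ τ) (h1 : τ < 1) {φ : HeightOneSpectrum (𝓞 K) → ℂ}
    (h : Tendsto (wmean τ φ) atTop (𝓝 0)) :
    Tendsto (fun N => TT φ N / (U K N : ℂ)) atTop (𝓝 0) := by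
  have hWtop := weight_atTop (K := K) h0 h1
  obtain ⟨C₁, hC₁, hreg⟩ := weight_le (K := K) h0 h1
  rw [Metric.tendsto_atTop']
  intro ε hε
  have h' : Tendsto (fun N => WS τ φ N / (weight K τ N : ℂ)) atTop (𝓝 0) :=
    h.congr fun N => wmean_eq φ N
  obtain ⟨C, hC0, hC⟩ := eps_bound (weight_nonneg (K := K) (τ := τ))
    (hWtop.eventually_gt_atTop 0) h' (show 0 < ε / (4 * C₁) by positivity)
  -- `N^τ` is small
  have hsmall : ∀ᶠ N : ℕ in atTop, 2 * C * (N : ℝ) ^ τ < ε / 2 * U K N := by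
    have h3 := growth (K := K) (τ := τ) h0 (κ := (1 - τ) / 2) (by linarith)
    have h4 : Tendsto (fun N : ℕ => ε / 2 * (N : ℝ) ^ ((1 - τ) / 2)) atTop atTop :=
      ((tendsto_rpow_atTop (by linarith)).comp tendsto_natCast_atTop_atTop).const_mul_atTop
        (by positivity)
    have hU1 := (card_pos_ev (F := K))
    -- use `U ≥ MM / N^{-τ}`-type bound through the weight
    have h5 := growth (K := K) (τ := 0) le_rfl (κ := (1 + τ) / 2) (by linarith)
    have h6 : Tendsto (fun N : ℕ => ε / 2 * (N : ℝ) ^ ((1 - τ) / 2)) atTop atTop := h4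
    filter_upwards [h5, h6.eventually_gt_atTop (2 * C), eventually_ge_atTop 1] with N h7 h8 h9
    have hN0 : (0 : ℝ) < N := by exact_mod_cast h9
    have h10 : (N : ℝ) ^ ((1 + τ) / 2) ≤ U K N := h7.trans (MM_le_U N)
    have e : (N : ℝ) ^ ((1 + τ) / 2) = (N : ℝ) ^ ((1 - τ) / 2) * (N : ℝ) ^ τ := by
      rw [← Real.rpow_add hN0]
      congr 1
      ring
    calc 2 * C * (N : ℝ) ^ τ < ε / 2 * (N : ℝ) ^ ((1 - τ) / 2) * (N : ℝ) ^ τ :=
          mul_lt_mul_of_pos_right h8 (by positivity)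
      _ = ε / 2 * (N : ℝ) ^ ((1 + τ) / 2) := by rw [e]; ring
      _ ≤ _ := mul_le_mul_of_nonneg_left h10 (by positivity)
  obtain ⟨N₀, hN₀⟩ := eventually_atTop.1 ((hsmall.and (card_pos_ev (F := K))).and
    (eventually_ge_atTop 1))
  refine ⟨N₀, fun N hN => ?_⟩
  obtain ⟨⟨h2, h3⟩, hN1⟩ := hN₀ N hN.le
  have hU : 0 < U K N := h3
  have hNR : (0 : ℝ) < N := by exact_mod_cast hN1
  rw [dist_zero_right, norm_div, Complex.norm_real, Real.norm_of_nonneg hU.le,
    div_lt_iff₀ hU]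
  set g : ℕ → ℝ := fun n => (n : ℝ) ^ τ with hg
  have hg0 : ∀ n, 0 ≤ g n := fun n => by positivity
  have hga : ∀ k, g k ≤ g (k + 1) := by
    intro k
    refine Real.rpow_le_rpow (by positivity) ?_ h0
    push_cast
    linarith
  set ψ : HeightOneSpectrum (𝓞 K) → ℂ := fun v => (rad τ v : ℂ) * φ v with hψ
  have e0 : TT φ N = ∑ v ∈ upto K N, (g (nm K v) : ℂ) * ψ v := by
    unfold TT
    refine Finset.sum_congr rfl fun v _ => ?_
    have hv : (0 : ℝ) < nm K v := by exact_mod_cast Nat.pos_of_ne_zero (nm_ne v)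
    have e1 : g (nm K v) * rad τ v = 1 := by
      unfold rad
      rw [hg]
      simp only
      rw [← Real.rpow_add hv, add_neg_cancel, Real.rpow_zero]
    rw [hψ]
    simp only
    rw [← mul_assoc, ← Complex.ofReal_mul, e1, Complex.ofReal_one, one_mul]
  have e1 : ∀ k, TT ψ k = WS τ φ k := fun k => rfl
  rw [e0, sum_weight]
  simp only [e1]
  have hbd : ∀ k ≤ N, ‖WS τ φ k‖ ≤ ε / (4 * C₁) * weight K τ N + C := by
    intro k hk
    refine (hC k).trans ?_
    have := mul_le_mul_of_nonneg_left (weight_mono (K := K) (τ := τ) hk)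
      (show 0 ≤ ε / (4 * C₁) by positivity)
    linarith
  have h4 : ‖∑ k ∈ Ico 1 N, ((g (k + 1) - g k : ℝ) : ℂ) * WS τ φ k‖ ≤
      ∑ k ∈ Ico 1 N, (g (k + 1) - g k) * (ε / (4 * C₁) * weight K τ N + C) := by
    refine (norm_sum_le _ _).trans (Finset.sum_le_sum fun k hk => ?_)
    rw [norm_mul, Complex.norm_real, Real.norm_of_nonneg (by linarith [hga k])]
    exact mul_le_mul_of_nonneg_left (hbd k (Finset.mem_Ico.1 hk).2.le) (by linarith [hga k])
  rw [← Finset.sum_mul, tele g N hN1] at h4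
  have h5 : ‖(g N : ℂ) * WS τ φ N‖ ≤ g N * (ε / (4 * C₁) * weight K τ N + C) := by
    rw [norm_mul, Complex.norm_real, Real.norm_of_nonneg (hg0 N)]
    exact mul_le_mul_of_nonneg_left (hbd N le_rfl) (hg0 N)
  have hWN := weight_nonneg (K := K) (τ := τ) N
  have h6 : (g N - g 1) * (ε / (4 * C₁) * weight K τ N + C) ≤
      g N * (ε / (4 * C₁) * weight K τ N + C) :=
    mul_le_mul_of_nonneg_right (by linarith [hg0 1]) (by positivity)
  have h7 : g N * weight K τ N ≤ C₁ * U K N := hreg N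
  have h8 : 2 * (g N * (ε / (4 * C₁) * weight K τ N)) ≤ ε / 2 * U K N := by
    calc 2 * (g N * (ε / (4 * C₁) * weight K τ N)) =
          ε / (2 * C₁) * (g N * weight K τ N) := by ring
      _ ≤ ε / (2 * C₁) * (C₁ * U K N) := mul_le_mul_of_nonneg_left h7 (by positivity)
      _ = ε / 2 * U K N := by field_simp
  have h9 : 2 * (g N * C) < ε / 2 * U K N := by
    have : 2 * (g N * C) = 2 * C * (N : ℝ) ^ τ := by rw [hg]; ring
    rw [this]
    exact h2
  calc ‖(g N : ℂ) * WS τ φ N - ∑ k ∈ Ico 1 N, ((g (k + 1) - g k : ℝ) : ℂ) * WS τ φ k‖ ≤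
        ‖(g N : ℂ) * WS τ φ N‖ +
          ‖∑ k ∈ Ico 1 N, ((g (k + 1) - g k : ℝ) : ℂ) * WS τ φ k‖ := norm_sub_le _ _
    _ ≤ 2 * (g N * (ε / (4 * C₁) * weight K τ N)) + 2 * (g N * C) := by
        have e9 : g N * (ε / (4 * C₁) * weight K τ N + C) =
          g N * (ε / (4 * C₁) * weight K τ N) + g N * C := by ring
        rw [e9] at h5 h6
        linarith
    _ < ε * U K N := by linarith

/-- **Weighted and natural mean values.** -/
theorem wmean_iff (h0 : 0 ≤ τ) (h1 : τ < 1) (φ : HeightOneSpectrum (𝓞 K) → ℂ) (c : ℂ) :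
    Tendsto (wmean τ φ) atTop (𝓝 c) ↔ Tendsto (meanAll φ) atTop (𝓝 c) := by
  have hW : ∀ᶠ N in atTop, weight K τ N ≠ 0 :=
    ((weight_atTop (K := K) h0 h1).eventually_gt_atTop 0).mono fun N h => h.ne'
  have e1 : ∀ᶠ N in atTop, wmean τ (fun v => φ v - c) N = wmean τ φ N - c := by
    filter_upwards [hW] with N hN
    have hNc : (weight K τ N : ℂ) ≠ 0 := by exact_mod_cast hN
    rw [wmean_eq, wmean_eq, div_sub' hNc]
    congr 1
    unfold WS
    rw [weight_eq, ← sub_eq_zero]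
    push_cast
    rw [Finset.sum_mul, ← Finset.sum_sub_distrib, ← Finset.sum_sub_distrib]
    exact Finset.sum_eq_zero fun v _ => by ring
  have e2 : ∀ᶠ N in atTop, TT (fun v => φ v - c) N / (U K N : ℂ) = meanAll φ N - c := by
    filter_upwards [card_pos_ev (F := K)] with N hN
    have hN' : 0 < U K N := hN
    have hNc : (U K N : ℂ) ≠ 0 := by exact_mod_cast hN'.ne'
    rw [meanAll_eq, div_sub' hNc]
    congr 1
    unfold TT U
    push_cast
    rw [Finset.sum_sub_distrib, Finset.sum_const, nsmul_eq_mul]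
  constructor
  · intro h
    have h2 : Tendsto (wmean τ (fun v => φ v - c)) atTop (𝓝 0) := by
      have := h.sub_const c
      rw [sub_self] at this
      exact this.congr' (e1.mono fun N hN => hN.symm)
    have h3 := mean_of_wmean h0 h1 h2
    have h4 := (h3.congr' e2).add_const c
    rw [zero_add] at h4
    exact h4.congr fun N => by ring
  · intro h
    have h2 : Tendsto (fun N => TT (fun v => φ v - c) N / (U K N : ℂ)) atTop (𝓝 0) := by
      have := h.sub_const c
      rw [sub_self] at this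
      exact this.congr' (e2.mono fun N hN => hN.symm)
    have h3 := wmean_of_mean h0 h1 h2
    have h4 := (h3.congr' e1).add_const c
    rw [zero_add] at h4
    exact h4.congr fun N => by ring

end Pool.Agent.H419.SP
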