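import Mathlib

/-! Limsup sets of sets of reals which are stable at a given scale. -/

set_option autoImplicit false

namespace Pool.Agent.H419.SP

open MeasureTheory Set Filter Topology
open scoped ENNReal NNReal

/-- the cells -/
def cell (k : ℤ) (L i : ℕ) : Set ℝ := Ioc ((k : ℝ) + i / L) ((k : ℝ) + (i + 1) / L)

theorem cell_volume (k : ℤ) {L : ℕ} (hL : 0 < L) (i : ℕ) :
    volume (cell k L i) = ENNReal.ofReal (1 / L) := by
  unfold cell
  rw [Real.volume_Ioc]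
  congr 1
  have : (0 : ℝ) < L := by exact_mod_cast hL
  field_simp
  ring

theorem cell_diam (k : ℤ) {L : ℕ} (hL : 0 < L) (i : ℕ) :
    Metric.ediam (cell k L i) ≤ ENNReal.ofReal (1 / L) := by
  unfold cell
  rw [Real.ediam_Ioc]
  refine ENNReal.ofReal_le_ofReal (le_of_eq ?_)
  have : (0 : ℝ) < L := by exact_mod_cast hL
  field_simp
  ring

theorem cell_dist {k : ℤ} {L : ℕ} (hL : 0 < L) {i : ℕ} {x y : ℝ} (hx : x ∈ cell k L i)
    (hy : y ∈ cell k L i) : |y - x| ≤ 1 / L := by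
  have h0 : (0 : ℝ) < L := by exact_mod_cast hL
  have h1 : (k : ℝ) + (i + 1) / L - (k + i / L) = 1 / L := by field_simp; ring
  rw [abs_le]
  constructor <;> linarith [hx.1, hx.2, hy.1, hy.2]

theorem cell_disjoint (k : ℤ) {L : ℕ} (hL : 0 < L) {i j : ℕ} (hij : i ≠ j) :
    Disjoint (cell k L i) (cell k L j) := by
  have h0 : (0 : ℝ) < L := by exact_mod_cast hL
  rw [Set.disjoint_left]
  have key : ∀ i j : ℕ, i < j → ∀ x, x ∈ cell k L i → x ∉ cell k L j := by
    intro i j h x hx hy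
    have h1 : ((i : ℝ) + 1) / L ≤ j / L := by
      refine div_le_div_of_nonneg_right ?_ h0.le
      exact_mod_cast h
    linarith [hx.2, hy.1]
  intro x hx hy
  rcases lt_or_gt_of_ne hij with h | h
  · exact key i j h x hx hy
  · exact key j i h x hy hx

theorem cell_sub (k : ℤ) {L i : ℕ} (hL : 0 < L) (hi : i < L) :
    cell k L i ⊆ Ioc (k : ℝ) (k + 1) := by
  have h0 : (0 : ℝ) < L := by exact_mod_cast hL
  intro x hx
  have h1 : (0 : ℝ) ≤ (i : ℝ) / L := by positivity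
  have h2 : ((i : ℝ) + 1) / L ≤ 1 := by
    rw [div_le_one h0]
    exact_mod_cast hi
  exact ⟨by linarith [hx.1], by linarith [hx.2]⟩

theorem exists_cell (k : ℤ) {L : ℕ} (hL : 0 < L) {x : ℝ} (hx : x ∈ Ioc (k : ℝ) (k + 1)) :
    ∃ i < L, x ∈ cell k L i := by
  have h0 : (0 : ℝ) < L := by exact_mod_cast hL
  set y : ℝ := (x - k) * L with hy
  have hy0 : 0 < y := mul_pos (by linarith [hx.1]) h0
  have hyL : y ≤ L := by
    calc y ≤ 1 * L := mul_le_mul_of_nonneg_right (by linarith [hx.2]) h0.le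
      _ = L := one_mul _
  have hc1 : (⌈y⌉₊ : ℝ) < y + 1 := Nat.ceil_lt_add_one hy0.le
  have hc2 : y ≤ ⌈y⌉₊ := Nat.le_ceil y
  have hc3 : 0 < ⌈y⌉₊ := Nat.ceil_pos.2 hy0
  have hc4 : ⌈y⌉₊ ≤ L := Nat.ceil_le.2 hyL
  refine ⟨⌈y⌉₊ - 1, by omega, ?_⟩
  have e1 : ((⌈y⌉₊ - 1 : ℕ) : ℝ) = (⌈y⌉₊ : ℝ) - 1 := by
    rw [Nat.cast_sub (by omega)]
    simp
  have e2 : x = k + y / L := by rw [hy]; field_simp; ring
  constructor
  · rw [e1, e2]
    have : ((⌈y⌉₊ : ℝ) - 1) / L < y / L := div_lt_div_of_pos_right (by linarith) h0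
    linarith
  · rw [e1, e2]
    have : y / L ≤ ((⌈y⌉₊ : ℝ) - 1 + 1) / L := div_le_div_of_nonneg_right (by linarith) h0.le
    linarith

open Classical in
/-- the bad cells -/
noncomputable def badCells (k : ℤ) (L : ℕ) (B : Set ℝ) : Finset ℕ :=
  (Finset.range L).filter fun i => ∃ x ∈ B, x ∈ cell k L i

theorem card_badCells (k : ℤ) {L : ℕ} (hL : 0 < L) {B : Set ℝ} {W : Set UnitAddCircle}
    (hW : MeasurableSet W)
    (hBW : ∀ x ∈ B, ∀ y : ℝ, |y - x| ≤ 1 / L → (y : UnitAddCircle) ∈ W) :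
    ((badCells k L B).card : ℝ) ≤ L * (volume : Measure UnitAddCircle).real W := by
  classical
  have h0 : (0 : ℝ) < L := by exact_mod_cast hL
  have hmp := UnitAddCircle.measurePreserving_mk (k : ℝ)
  have h1 : volume (⋃ i ∈ badCells k L B, cell k L i) =
      ((badCells k L B).card : ℝ≥0∞) * ENNReal.ofReal (1 / L) := by
    rw [measure_biUnion_finset]
    · rw [Finset.sum_congr rfl fun i _ => cell_volume k hL i, Finset.sum_const, nsmul_eq_mul]
    · intro i _ j _ hij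
      exact cell_disjoint k hL hij
    · exact fun i _ => measurableSet_Ioc
  have h2 : (⋃ i ∈ badCells k L B, cell k L i) ⊆
      (fun y : ℝ => (y : UnitAddCircle)) ⁻¹' W ∩ Ioc (k : ℝ) (k + 1) := by
    intro y hy
    simp only [Set.mem_iUnion, exists_prop] at hy
    obtain ⟨i, hi, hyi⟩ := hy
    obtain ⟨hiL, x, hx, hxi⟩ := Finset.mem_filter.1 hi
    exact ⟨hBW x hx y (cell_dist hL hxi hyi), cell_sub k hL (Finset.mem_range.1 hiL) hyi⟩
  have h3 : volume ((fun y : ℝ => (y : UnitAddCircle)) ⁻¹' W ∩ Ioc (k : ℝ) (k + 1)) =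
      (volume : Measure UnitAddCircle) W := by
    rw [← Measure.restrict_apply (hmp.measurable hW)]
    exact hmp.measure_preimage hW.nullMeasurableSet
  have h4 : ((badCells k L B).card : ℝ≥0∞) * ENNReal.ofReal (1 / L) ≤
      (volume : Measure UnitAddCircle) W := by
    rw [← h1, ← h3]
    exact measure_mono h2
  have hfin : (volume : Measure UnitAddCircle) W ≠ ∞ :=
    ne_top_of_le_ne_top (by rw [UnitAddCircle.measure_univ]; exact ENNReal.one_ne_top)
      (measure_mono (subset_univ W))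
  have h5 := ENNReal.toReal_mono hfin h4
  rw [ENNReal.toReal_mul, ENNReal.toReal_natCast, ENNReal.toReal_ofReal (by positivity)] at h5
  rw [measureReal_def]
  calc ((badCells k L B).card : ℝ) = L * (((badCells k L B).card : ℝ) * (1 / L)) := by field_simp
    _ ≤ _ := mul_le_mul_of_nonneg_left h5 h0.le

/-- **The limsup set.** -/
theorem limsup_null (k : ℤ) (L : ℕ → ℕ) (hL : ∀ t, 0 < L t) (B : ℕ → Set ℝ)
    (W : ℕ → Set UnitAddCircle) (hW : ∀ t, MeasurableSet (W t))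
    (hBW : ∀ t, ∀ x ∈ B t, ∀ y : ℝ, |y - x| ≤ 1 / L t → (y : UnitAddCircle) ∈ W t)
    (s : ℝ) (hs : 0 ≤ s)
    (hsum : Summable fun t => (L t : ℝ) * (volume : Measure UnitAddCircle).real (W t) *
      (1 / L t : ℝ) ^ s)
    (r : ℕ → ℝ) (hr : Antitone r) (hr0 : Tendsto r atTop (𝓝 0)) (hLr : ∀ t, (1 / L t : ℝ) ≤ r t) :
    Measure.hausdorffMeasure s {x : ℝ | x ∈ Ioc (k : ℝ) (k + 1) ∧ ∃ᶠ t in atTop, x ∈ B t} = 0 := by
  classical
  let ι : ℕ → Type := fun T => Σ u : ℕ, ↥(badCells k (L (T + u)) (B (T + u)))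
  let S : ∀ T : ℕ, ι T → Set ℝ := fun T p => cell k (L (T + p.1)) p.2
  have hdiam : ∀ (T : ℕ) (p : ι T), Metric.ediam (S T p) ≤ ENNReal.ofReal (r T) := fun T p =>
    (cell_diam k (hL _) _).trans (ENNReal.ofReal_le_ofReal
      ((hLr _).trans (hr (Nat.le_add_right _ _))))
  have hcov : ∀ T : ℕ, {x : ℝ | x ∈ Ioc (k : ℝ) (k + 1) ∧ ∃ᶠ t in atTop, x ∈ B t} ⊆ ⋃ p, S T p := by
    rintro T x ⟨hx, hfr⟩
    obtain ⟨t, ht, hxt⟩ := (frequently_atTop.1 hfr) T
    obtain ⟨u, rfl⟩ := Nat.exists_eq_add_of_le ht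
    obtain ⟨i, hi, hxi⟩ := exists_cell k (hL (T + u)) hx
    rw [Set.mem_iUnion]
    exact ⟨⟨u, ⟨i, Finset.mem_filter.2 ⟨Finset.mem_range.2 hi, x, hxt, hxi⟩⟩⟩, hxi⟩
  set g : ℕ → ℝ := fun t => (L t : ℝ) * (volume : Measure UnitAddCircle).real (W t) *
      (1 / L t : ℝ) ^ s with hg
  have hg0 : ∀ t, 0 ≤ g t := fun t => by
    have : 0 ≤ (volume : Measure UnitAddCircle).real (W t) := measureReal_nonneg
    positivity
  have hle : ∀ T : ℕ, ∑' p : ι T, Metric.ediam (S T p) ^ s ≤ ∑' u, ENNReal.ofReal (g (u + T)) := by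
    intro T
    rw [ENNReal.tsum_sigma']
    refine ENNReal.tsum_le_tsum fun u => ?_
    have h1 : ∀ p : ↥(badCells k (L (T + u)) (B (T + u))),
        Metric.ediam (S T ⟨u, p⟩) ^ s ≤ ENNReal.ofReal ((1 / L (T + u) : ℝ) ^ s) := by
      intro p
      have h0 : (0 : ℝ) < L (T + u) := by exact_mod_cast hL _
      rw [← ENNReal.ofReal_rpow_of_pos (by positivity)]
      exact ENNReal.rpow_le_rpow (cell_diam k (hL _) _) hs
    refine (ENNReal.tsum_le_tsum h1).trans ?_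
    rw [tsum_fintype, Finset.sum_const, Finset.card_univ, Fintype.card_coe, nsmul_eq_mul,
      ← ENNReal.ofReal_natCast, ← ENNReal.ofReal_mul (by positivity), add_comm u T]
    refine ENNReal.ofReal_le_ofReal ?_
    exact mul_le_mul_of_nonneg_right (card_badCells k (hL _) (hW _) (hBW _)) (by positivity)
  have hlim : Tendsto (fun T => ∑' u, ENNReal.ofReal (g (u + T))) atTop (𝓝 0) := by
    refine ENNReal.tendsto_sum_nat_add (fun t => ENNReal.ofReal (g t)) ?_
    rw [← ENNReal.ofReal_tsum_of_nonneg hg0 hsum]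
    exact ENNReal.ofReal_ne_top
  have h1 := Measure.hausdorffMeasure_le_liminf_tsum s
    {x : ℝ | x ∈ Ioc (k : ℝ) (k + 1) ∧ ∃ᶠ t in atTop, x ∈ B t} (l := atTop)
    (fun T : ℕ => ENNReal.ofReal (r T)) (by
      have := ENNReal.tendsto_ofReal hr0
      rwa [ENNReal.ofReal_zero] at this) S (Eventually.of_forall hdiam)
    (Eventually.of_forall hcov)
  refine le_antisymm (h1.trans ?_) bot_le
  refine (Filter.liminf_le_liminf (Eventually.of_forall hle)).trans ?_
  rw [hlim.liminf_eq]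

end Pool.Agent.H419.SP
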