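import Pool.Agent.H419.BS.Defs

/-! Definitions for the Sato-Tate law along sparse sets of primes. -/

set_option autoImplicit false

namespace Pool.Agent.H419.SP

open NumberField IsDedekindDomain Filter Topology MeasureTheory
open Pool.Agent.H419.BS (q mean)

variable {K : Type} [Field K] [NumberField K]

/-- The primes `v` such that the distance of `α q_v - b_v` to the next integer is at most
`q_v^{-τ}`. -/
def Near (τ : ℝ) (b : HeightOneSpectrum (𝓞 K) → ℝ) (α : ℝ) (v : HeightOneSpectrum (𝓞 K)) :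
    Prop :=
  ∃ l : ℤ, |α * q v - b v - l| ≤ (q v : ℝ) ^ (-τ)

variable (K) in
/-- The sum of `q_v^{-τ}` over the primes with `q_v ≤ N`. -/
noncomputable def weight (τ : ℝ) (N : ℕ) : ℝ :=
  ∑ᶠ v : {v : HeightOneSpectrum (𝓞 K) // q v ≤ N}, (q v.1 : ℝ) ^ (-τ)

/-- The mean value of `φ` over the primes with `q_v ≤ N`, with the weights `q_v^{-τ}`. -/
noncomputable def wmean (τ : ℝ) (φ : HeightOneSpectrum (𝓞 K) → ℂ) (N : ℕ) : ℂ :=
  (∑ᶠ v : {v : HeightOneSpectrum (𝓞 K) // q v ≤ N}, (((q v.1 : ℝ) ^ (-τ) : ℝ) : ℂ) * φ v.1) /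
    (weight K τ N : ℂ)

/-- `α` is typical for the points `x v`, the centres `b v` and the exponent `τ`: the number of the
primes `v` with `‖α q_v - b_v‖ ≤ q_v^{-τ}` and `q_v ≤ N` is asymptotic to the sum of `2 q_v^{-τ}`, and
the mean value of `f (x v)` over these primes agrees in the limit with the weighted mean value over
all primes, for all continuous `f`. -/
structure Typical {X : Type} [TopologicalSpace X] (τ : ℝ) (b : HeightOneSpectrum (𝓞 K) → ℝ)
    (x : HeightOneSpectrum (𝓞 K) → X) (α : ℝ) : Prop where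
  count : Tendsto (fun N : ℕ =>
    (Nat.card {v : HeightOneSpectrum (𝓞 K) // Near τ b α v ∧ q v ≤ N} : ℝ) /
      (2 * weight K τ N)) atTop (𝓝 1)
  mean : ∀ f : X → ℂ, Continuous f → Tendsto (fun N =>
    mean (Near τ b α) (fun v => f (x v)) N - wmean τ (fun v => f (x v)) N) atTop (𝓝 0)

end Pool.Agent.H419.SP
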