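import Pool.Graph.R_pool_sql_team_seeded_2aa45f1a.Results.MP_69be96_nt.DimensionOfApproximableNumbers
import Pool.Agent.H419.SP.Abel

/-! The lower bound for the dimension of the exceptional set. -/

set_option autoImplicit false
set_option linter.unusedSectionVars false

namespace Pool.Agent.H419.SP

open NumberField IsDedekindDomain Filter Topology MeasureTheory Finset
open Pool.Agent.W540.BE (upto nm mem_upto two_le_nm)
open Pool.Agent.H419.BS (U U_le U_mono U_atTop pnt q)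
open scoped ENNReal NNReal

variable {K : Type} [Field K] [NumberField K] {τ : ℝ}

theorem weight_lower (h0 : 0 ≤ τ) {κ : ℝ} (hκ : κ < 1 - τ) : ∀ᶠ N : ℕ in atTop,
    1 / 2 * (N : ℝ) ^ κ ≤ weight K τ N := by
  filter_upwards [growth (K := K) h0 hκ] with N hN
  have h3 : 1 / 2 * MM K τ N ≤ weight K τ N := by
    rw [weight_eq]
    unfold MM
    rw [Finset.mul_sum]
    refine Finset.sum_le_sum fun v _ => ?_
    have := m_le (rad τ v)
    linarith
  linarith

theorem weight_upper (h0 : 0 ≤ τ) (h1 : τ < 1) : ∃ C : ℝ, 0 < C ∧ ∀ N : ℕ, 0 < N →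
    weight K τ N ≤ C * (N : ℝ) ^ (1 - τ) := by
  obtain ⟨C, hC, h⟩ := weight_le (K := K) h0 h1
  have hd : (0 : ℝ) < Module.finrank ℚ K := by exact_mod_cast Module.finrank_pos
  refine ⟨C * Module.finrank ℚ K, by positivity, fun N hN => ?_⟩
  have hN0 : (0 : ℝ) < N := by exact_mod_cast hN
  have h2 := h N
  have h3 := U_le (K := K) N
  have h4 : (N : ℝ) ^ τ * weight K τ N ≤ C * (Module.finrank ℚ K * N) :=
    h2.trans (mul_le_mul_of_nonneg_left h3 hC.le)
  have e : (N : ℝ) ^ (1 - τ) = N / (N : ℝ) ^ τ := by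
    rw [Real.rpow_sub hN0, Real.rpow_one]
  rw [e, ← mul_div_assoc, le_div_iff₀ (by positivity)]
  linarith

/-- the two scales -/
noncomputable def LL' (τ : ℝ) (n : ℕ) : ℕ := ⌈(2 * (n : ℝ)) ^ (1 / τ)⌉₊

/-- the two scales -/
noncomputable def RR (κ : ℝ) (n : ℕ) : ℕ := ⌊(n : ℝ) ^ (κ - 1) / 2⌋₊

theorem LL'_atTop (h0 : 0 < τ) : Tendsto (LL' τ) atTop atTop := by
  unfold LL'
  refine tendsto_nat_ceil_atTop.comp ?_
  refine (tendsto_rpow_atTop (by positivity)).comp ?_
  exact tendsto_natCast_atTop_atTop.const_mul_atTop (by norm_num)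

theorem RR_atTop {κ : ℝ} (hκ : 1 < κ) : Tendsto (RR κ) atTop atTop := by
  unfold RR
  refine tendsto_nat_floor_atTop.comp ?_
  refine Tendsto.atTop_div_const (by norm_num) ?_
  exact (tendsto_rpow_atTop (by linarith)).comp tendsto_natCast_atTop_atTop

/-- comparison of the weights at the two scales -/
theorem compare (h0 : 0 < τ) (h1 : τ < 1) {κ : ℝ} (hκ : 1 + 1 / τ < κ) :
    ∀ᶠ n : ℕ in atTop, 16 * weight K τ (LL' τ n) ≤ weight K τ (RR κ n) := by
  obtain ⟨C, hC, hup⟩ := weight_upper (K := K) h0.le h1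
  have hκ1 : 0 < κ - 1 := by
    have : 0 < 1 / τ := by positivity
    linarith
  -- the exponents
  set e1 : ℝ := (1 - τ) / τ with he1
  have he1' : e1 / (κ - 1) < 1 - τ := by
    rw [div_lt_iff₀ hκ1, he1, div_eq_mul_one_div]
    exact mul_lt_mul_of_pos_left (by linarith) (by linarith)
  obtain ⟨κ', hκ'1, hκ'2⟩ := exists_between he1'
  have he10 : 0 < e1 := div_pos (by linarith) h0
  have hκ'0 : 0 < κ' := lt_trans (div_pos he10 hκ1) hκ'1
  have hlt : e1 < (κ - 1) * κ' := by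
    rw [div_lt_iff₀ hκ1] at hκ'1
    linarith
  have hlow := (RR_atTop (by linarith : 1 < κ)).eventually (weight_lower (K := K) h0.le hκ'2)
  set A : ℝ := 16 * (C * (2 ^ (1 - τ) * 2 ^ e1)) with hA
  set B : ℝ := 1 / 2 * (1 / 4) ^ κ' with hB
  have hBpos : 0 < B := by positivity
  have hbig : Tendsto (fun n : ℕ => (n : ℝ) ^ ((κ - 1) * κ' - e1)) atTop atTop :=
    (tendsto_rpow_atTop (by linarith)).comp tendsto_natCast_atTop_atTop
  have hbig2 : Tendsto (fun n : ℕ => (n : ℝ) ^ (κ - 1)) atTop atTop :=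
    (tendsto_rpow_atTop hκ1).comp tendsto_natCast_atTop_atTop
  filter_upwards [hlow, hbig.eventually_ge_atTop (A / B), hbig2.eventually_ge_atTop 4,
    eventually_ge_atTop 1] with n h2 h3 h4 hn
  have hn0 : (0 : ℝ) < n := by exact_mod_cast hn
  have hn1 : (1 : ℝ) ≤ n := by exact_mod_cast hn
  have h2n : (1 : ℝ) ≤ (2 * (n : ℝ)) ^ (1 / τ) := Real.one_le_rpow (by linarith) (by positivity)
  have hLpos : 0 < LL' τ n := Nat.ceil_pos.2 (by linarith)
  have hLle : (LL' τ n : ℝ) ≤ 2 * (2 * (n : ℝ)) ^ (1 / τ) := by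
    have := Nat.ceil_lt_add_one (show 0 ≤ (2 * (n : ℝ)) ^ (1 / τ) by positivity)
    unfold LL'
    linarith
  have hL : weight K τ (LL' τ n) ≤ C * (2 ^ (1 - τ) * 2 ^ e1) * (n : ℝ) ^ e1 := by
    refine (hup _ hLpos).trans ?_
    have h5 : (LL' τ n : ℝ) ^ (1 - τ) ≤ (2 * (2 * (n : ℝ)) ^ (1 / τ)) ^ (1 - τ) :=
      Real.rpow_le_rpow (by positivity) hLle (by linarith)
    have h6 : (2 * (2 * (n : ℝ)) ^ (1 / τ)) ^ (1 - τ) = 2 ^ (1 - τ) * 2 ^ e1 * (n : ℝ) ^ e1 := by
      rw [Real.mul_rpow (by norm_num) (by positivity), ← Real.rpow_mul (by positivity),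
        Real.mul_rpow (by norm_num) hn0.le]
      have e : 1 / τ * (1 - τ) = e1 := by rw [he1]; ring
      rw [e]
      ring
    rw [h6] at h5
    calc C * (LL' τ n : ℝ) ^ (1 - τ) ≤ C * (2 ^ (1 - τ) * 2 ^ e1 * (n : ℝ) ^ e1) :=
          mul_le_mul_of_nonneg_left h5 hC.le
      _ = _ := by ring
  have hR : B * (n : ℝ) ^ ((κ - 1) * κ') ≤ weight K τ (RR κ n) := by
    refine le_trans ?_ h2
    have h5 : (n : ℝ) ^ (κ - 1) / 4 ≤ RR κ n := by
      have := Nat.sub_one_lt_floor ((n : ℝ) ^ (κ - 1) / 2)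
      unfold RR
      linarith
    have h6 : ((n : ℝ) ^ (κ - 1) / 4) ^ κ' ≤ (RR κ n : ℝ) ^ κ' :=
      Real.rpow_le_rpow (by positivity) h5 hκ'0.le
    have h7 : ((n : ℝ) ^ (κ - 1) / 4) ^ κ' = (n : ℝ) ^ ((κ - 1) * κ') * (1 / 4) ^ κ' := by
      rw [div_eq_mul_one_div, Real.mul_rpow (by positivity) (by norm_num),
        ← Real.rpow_mul hn0.le]
    rw [h7] at h6
    rw [hB]
    linarith
  have h8 : A * (n : ℝ) ^ e1 ≤ B * (n : ℝ) ^ ((κ - 1) * κ') := by
    have e : (n : ℝ) ^ ((κ - 1) * κ') = (n : ℝ) ^ ((κ - 1) * κ' - e1) * (n : ℝ) ^ e1 := by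
      rw [← Real.rpow_add hn0]
      congr 1
      ring
    rw [e, ← mul_assoc]
    refine mul_le_mul_of_nonneg_right ?_ (by positivity)
    rw [div_le_iff₀ hBpos] at h3
    linarith
  calc 16 * weight K τ (LL' τ n) ≤ 16 * (C * (2 ^ (1 - τ) * 2 ^ e1) * (n : ℝ) ^ e1) := by linarith
    _ = A * (n : ℝ) ^ e1 := by rw [hA]; ring
    _ ≤ _ := h8.trans hR

open Classical in
/-- the primes between the two scales -/
theorem few_near (h0 : 0 < τ) {κ : ℝ} {α : ℝ} (hα1 : 1 < α) (hα2 : α < 2) {p n : ℕ}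
    (hn : 1 ≤ n) (hdist : (n : ℝ) ^ (-κ) < min (α - 1) (2 - α))
    (h : |α - (p : ℝ) / n| < (n : ℝ) ^ (-κ)) :
    ((upto K (RR κ n)).filter fun v => LL' τ n < nm K v ∧ Near τ (fun _ => 0) α v).card ≤
      Module.finrank ℚ K := by
  have hn0 : (0 : ℝ) < n := by exact_mod_cast hn
  set g := Nat.gcd p n with hg
  have hgpos : 0 < g := Nat.gcd_pos_of_pos_right _ hn
  obtain ⟨p', hp'⟩ : g ∣ p := Nat.gcd_dvd_left _ _
  obtain ⟨n', hn'⟩ : g ∣ n := Nat.gcd_dvd_right _ _
  have hcop : p'.Coprime n' := by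
    have h1 := Nat.coprime_div_gcd_div_gcd (m := p) (n := n) hgpos
    have e1 : p / Nat.gcd p n = p' := by
      rw [← hg]
      exact Nat.div_eq_of_eq_mul_right hgpos hp'
    have e2 : n / Nat.gcd p n = n' := by
      rw [← hg]
      exact Nat.div_eq_of_eq_mul_right hgpos hn'
    rwa [e1, e2] at h1
  have hn'pos : 0 < n' := Nat.pos_of_ne_zero (by rintro rfl; omega)
  have hn'0 : (0 : ℝ) < n' := by exact_mod_cast hn'pos
  have hn'le : n' ≤ n := by rw [hn']; exact Nat.le_mul_of_pos_left _ hgpos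
  have hn'leR : (n' : ℝ) ≤ n := by exact_mod_cast hn'le
  have hfrac : (p : ℝ) / n = p' / n' := by
    have hg0 : (g : ℝ) ≠ 0 := by exact_mod_cast hgpos.ne'
    rw [hp', hn']
    push_cast
    field_simp
  rw [hfrac] at h
  -- the denominator is at least two
  have hn'2 : 2 ≤ n' := by
    by_contra hcon
    have h1 : n' = 1 := by omega
    rw [h1, Nat.cast_one, div_one] at h
    have h2 := lt_min_iff.1 hdist
    have h3 := abs_lt.1 h
    have h4 : (1 : ℝ) < p' := by linarith [h3.1, h3.2, h2.1]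
    have h5 : (p' : ℝ) < 2 := by linarith [h3.1, h3.2, h2.2]
    have h6 : 1 < p' := by exact_mod_cast h4
    have h7 : p' < 2 := by exact_mod_cast h5
    omega
  -- a near prime has a norm divisible by the denominator
  have hdvd : ∀ v ∈ upto K (RR κ n), LL' τ n < nm K v → Near τ (fun _ => 0) α v →
      n' ∣ nm K v := by
    intro v hv hvL hnear
    obtain ⟨l, hl⟩ := hnear
    rw [sub_zero] at hl
    have hv0 : (0 : ℝ) < nm K v := by exact_mod_cast Nat.pos_of_ne_zero (nm_ne v)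
    have hvR : (nm K v : ℝ) ≤ (n : ℝ) ^ (κ - 1) / 2 := by
      have h1 : nm K v ≤ RR κ n := mem_upto.1 hv
      have h2 : ((RR κ n : ℕ) : ℝ) ≤ (n : ℝ) ^ (κ - 1) / 2 := Nat.floor_le (by positivity)
      exact le_trans (by exact_mod_cast h1) h2
    have hsmall : (nm K v : ℝ) ^ (-τ) < 1 / (2 * n) := by
      have h1 : (2 * (n : ℝ)) ^ (1 / τ) < nm K v := by
        have h2 : (2 * (n : ℝ)) ^ (1 / τ) ≤ LL' τ n := Nat.le_ceil _
        exact lt_of_le_of_lt h2 (by exact_mod_cast hvL)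
      have h2 : 2 * (n : ℝ) < (nm K v : ℝ) ^ τ := by
        calc 2 * (n : ℝ) = ((2 * (n : ℝ)) ^ (1 / τ)) ^ τ := by
              rw [← Real.rpow_mul (by positivity), one_div, inv_mul_cancel₀ h0.ne', Real.rpow_one]
          _ < _ := Real.rpow_lt_rpow (by positivity) h1 h0
      rw [Real.rpow_neg hv0.le, ← one_div]
      exact one_div_lt_one_div_of_lt (by positivity) h2
    have hprod : (nm K v : ℝ) * (n : ℝ) ^ (-κ) ≤ 1 / (2 * n) := by
      calc (nm K v : ℝ) * (n : ℝ) ^ (-κ) ≤ ((n : ℝ) ^ (κ - 1) / 2) * (n : ℝ) ^ (-κ) :=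
            mul_le_mul_of_nonneg_right hvR (by positivity)
        _ = ((n : ℝ) ^ (κ - 1) * (n : ℝ) ^ (-κ)) / 2 := by ring
        _ = 1 / (2 * n) := by
            rw [← Real.rpow_add hn0, show κ - 1 + -κ = -1 by ring, Real.rpow_neg_one]
            field_simp
    have hkey : |(nm K v : ℝ) * (p' / n') - l| < 1 / n' := by
      have e : (nm K v : ℝ) * (p' / n') - l = (α * nm K v - l) - nm K v * (α - p' / n') := by ring
      rw [e]
      have h1 : |α * (nm K v : ℝ) - l| ≤ (nm K v : ℝ) ^ (-τ) := hl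
      have h2 : |(nm K v : ℝ) * (α - p' / n')| ≤ (nm K v : ℝ) * (n : ℝ) ^ (-κ) := by
        rw [abs_mul, abs_of_pos hv0]
        exact mul_le_mul_of_nonneg_left h.le hv0.le
      have h3 : 1 / (2 * (n : ℝ)) + 1 / (2 * n) ≤ 1 / n' := by
        have : 1 / (2 * (n : ℝ)) + 1 / (2 * n) = 1 / n := by field_simp; norm_num
        rw [this]
        exact one_div_le_one_div_of_le hn'0 hn'leR
      calc |(α * nm K v - l) - nm K v * (α - p' / n')| ≤
            |α * (nm K v : ℝ) - l| + |(nm K v : ℝ) * (α - p' / n')| := abs_sub _ _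
        _ < 1 / (2 * n) + 1 / (2 * n) := by linarith
        _ ≤ _ := h3
    have hint : (nm K v : ℤ) * p' - l * n' = 0 := by
      have h1 : |((nm K v : ℤ) * p' - l * n' : ℤ)| < 1 := by
        have h2 : |(((nm K v : ℤ) * p' - l * n' : ℤ) : ℝ)| < 1 := by
          have e : (((nm K v : ℤ) * p' - l * n' : ℤ) : ℝ) =
              ((nm K v : ℝ) * (p' / n') - l) * n' := by
            push_cast
            field_simp
          rw [e, abs_mul, abs_of_pos hn'0]
          calc _ < 1 / (n' : ℝ) * n' := mul_lt_mul_of_pos_right hkey hn'0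
            _ = 1 := by field_simp
        exact_mod_cast h2
      exact Int.abs_lt_one_iff.1 h1
    have h3 : (n' : ℤ) ∣ (nm K v : ℤ) * p' := ⟨l, by linarith⟩
    have h4 : n' ∣ nm K v * p' := by exact_mod_cast h3
    exact (Nat.Coprime.dvd_of_dvd_mul_right hcop.symm h4)
  -- all these primes are above one prime number
  obtain ⟨ℓ, hℓ, hℓn⟩ := Nat.exists_prime_and_dvd (show n' ≠ 1 by omega)
  have hover := Pool.Agent.W352.ChAbs.over_le (K := K) ℓ hℓ
  have hsub : (((upto K (RR κ n)).filter fun v =>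
      LL' τ n < nm K v ∧ Near τ (fun _ => 0) α v : Finset (HeightOneSpectrum (𝓞 K))) :
      Set (HeightOneSpectrum (𝓞 K))) ⊆ {v | (ℓ : 𝓞 K) ∈ v.asIdeal} := by
    intro v hv
    rw [Finset.mem_coe, Finset.mem_filter] at hv
    have h1 := hdvd v hv.1 hv.2.1 hv.2.2
    obtain ⟨p₁, k, hp₁, hpv, hmem⟩ := nm_pow v
    have h2 : ℓ ∣ p₁ ^ k := by
      rw [← hpv]
      exact hℓn.trans h1
    have h3 : ℓ = p₁ := (Nat.prime_dvd_prime_iff_eq hℓ hp₁).1 (hℓ.dvd_of_dvd_pow h2)
    rw [h3]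
    exact hmem
  have h1 := Set.ncard_le_ncard hsub hover.1
  rw [Set.ncard_coe_finset] at h1
  exact h1.trans hover.2

/-- **Well approximable numbers are not typical.** -/
theorem not_typical {X : Type} [TopologicalSpace X] (x : HeightOneSpectrum (𝓞 K) → X)
    (h0 : 0 < τ) (h1 : τ < 1) {κ : ℝ} (hκ : 1 + 1 / τ < κ) {α : ℝ} (hα1 : 1 < α) (hα2 : α < 2)
    (happ : ∀ T : ℝ, ∃ p n : ℕ, T ≤ n ∧ |α - (p : ℝ) / n| < (n : ℝ) ^ (-κ)) :
    ¬ Typical τ (fun _ => 0) x α := by
  classical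
  intro hty
  have hκ1 : 1 < κ := by
    have : 0 < 1 / τ := by positivity
    linarith
  have hcount := hty.count
  have hWtop := weight_atTop (K := K) h0.le h1
  have hc1 : ∀ᶠ N in atTop, 0 < weight K τ N ∧ weight K τ N ≤
      SS τ (fun _ : HeightOneSpectrum (𝓞 K) => 1) (cen fun _ => 0) N α ∧
      SS τ (fun _ : HeightOneSpectrum (𝓞 K) => 1) (cen fun _ => 0) N α ≤ 4 * weight K τ N := by
    filter_upwards [hcount.eventually_const_lt (show (1 / 2 : ℝ) < 1 by norm_num),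
      hcount.eventually_lt_const (show (1 : ℝ) < 2 by norm_num),
      hWtop.eventually_gt_atTop 0] with N h2 h3 h4
    rw [card_near] at h2 h3
    rw [lt_div_iff₀ (by positivity)] at h2
    rw [div_lt_iff₀ (by positivity)] at h3
    exact ⟨h4, by linarith, by linarith⟩
  have hd : (0 : ℝ) < Module.finrank ℚ K := by exact_mod_cast Module.finrank_pos
  have hpow : Tendsto (fun n : ℕ => (n : ℝ) ^ (-κ)) atTop (𝓝 0) :=
    (tendsto_rpow_neg_atTop (by linarith)).comp tendsto_natCast_atTop_atTop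
  have hmin : 0 < min (α - 1) (2 - α) := lt_min (by linarith) (by linarith)
  obtain ⟨n₀, hn₀⟩ := eventually_atTop.1 ((((compare (K := K) h0 h1 hκ).and
    ((LL'_atTop h0).eventually hc1)).and ((RR_atTop hκ1).eventually
    (hc1.and (hWtop.eventually_gt_atTop (4 * Module.finrank ℚ K))))).and
    ((hpow.eventually_lt_const hmin).and (eventually_ge_atTop 1)))
  obtain ⟨p, n, hn, hpn⟩ := happ n₀
  have hn' : n₀ ≤ n := by exact_mod_cast hn
  obtain ⟨⟨⟨h2, h3⟩, h4, h5⟩, h6, h7⟩ := hn₀ n hn'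
  have hfew := few_near (K := K) (τ := τ) h0 hα1 hα2 h7 h6 hpn
  -- the count at the larger scale
  have hle : SS τ (fun _ : HeightOneSpectrum (𝓞 K) => 1) (cen fun _ => 0) (RR κ n) α ≤
      SS τ (fun _ : HeightOneSpectrum (𝓞 K) => 1) (cen fun _ => 0) (LL' τ n) α +
        Module.finrank ℚ K := by
    have e : ∀ N, SS τ (fun _ : HeightOneSpectrum (𝓞 K) => 1) (cen fun _ => 0) N α =
        ((upto K N).filter (Near τ (fun _ => 0) α)).card := by
      intro N
      unfold SS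
      rw [Finset.card_filter]
      push_cast
      refine Finset.sum_congr rfl fun v _ => ?_
      rw [ind_eq, one_mul]
    rw [e, e]
    have h8 : ((upto K (RR κ n)).filter (Near τ (fun _ => 0) α)).card ≤
        ((upto K (LL' τ n)).filter (Near τ (fun _ => 0) α)).card +
        ((upto K (RR κ n)).filter fun v => LL' τ n < nm K v ∧ Near τ (fun _ => 0) α v).card := by
      refine (Finset.card_le_card ?_).trans (Finset.card_union_le _ _)
      intro v hv
      rw [Finset.mem_filter] at hv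
      rw [Finset.mem_union, Finset.mem_filter, Finset.mem_filter]
      by_cases hvL : nm K v ≤ LL' τ n
      · exact Or.inl ⟨mem_upto.2 hvL, hv.2⟩
      · exact Or.inr ⟨hv.1, not_le.1 hvL, hv.2⟩
    have h9 := h8.trans (Nat.add_le_add_left hfew _)
    exact_mod_cast h9
  linarith [h3.2.2, h4.2.1, h4.1]

/-- **The lower bound for the dimension.** -/
theorem le_dim {X : Type} [TopologicalSpace X] (x : HeightOneSpectrum (𝓞 K) → X)
    (h0 : 0 < τ) (h1 : τ < 1) :
    ENNReal.ofReal (2 * τ / (1 + τ)) ≤ dimH {α : ℝ | ¬ Typical τ (fun _ => 0) x α} := by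
  refine le_of_forall_lt fun c hc => ?_
  have hcne : c ≠ ⊤ := ne_top_of_lt hc
  obtain ⟨e, he1, he2⟩ := exists_between hc
  have hene : e ≠ ⊤ := ne_top_of_lt he2
  have hepos : 0 < e.toReal := ENNReal.toReal_pos (ne_zero_of_lt he1) hene
  have he3 : e.toReal < 2 * τ / (1 + τ) := by
    rw [← ENNReal.ofReal_toReal hene] at he2
    exact (ENNReal.ofReal_lt_ofReal_iff (by positivity)).1 he2
  -- the exponent
  have h2 : 1 + 1 / τ < 2 / e.toReal := by
    rw [lt_div_iff₀ hepos]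
    have : e.toReal * (1 + τ) < 2 * τ := by rwa [lt_div_iff₀ (by linarith)] at he3
    have e1 : (1 + 1 / τ) * e.toReal = e.toReal * (1 + τ) / τ := by field_simp; ring
    rw [e1, div_lt_iff₀ h0]
    exact this
  obtain ⟨κ, hκ1, hκ2⟩ := exists_between h2
  have hκ0 : 2 ≤ κ := by
    have : 1 < 1 / τ := by rw [lt_div_iff₀ h0]; linarith
    linarith
  have hs : e.toReal < 2 / κ := by
    rw [lt_div_iff₀ (by linarith)]
    rw [lt_div_iff₀ hepos] at hκ2
    linarith
  obtain ⟨κ₁, _, h⟩ := Pool.Agent.Results.MP_69be96_nt.DimensionOfApproximableNumbers.main κ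
    e.toReal hκ0 hs
  have h3 := h 1 2 le_rfl (by norm_num) le_rfl
  rw [ENNReal.ofReal_toReal hene] at h3
  refine lt_of_lt_of_le he1 (h3.trans (dimH_mono ?_))
  rintro α ⟨⟨h4, h5⟩, h6⟩
  refine not_typical x h0 h1 hκ1 h4 h5 fun T => ?_
  obtain ⟨p, n, h7, h8, -⟩ := h6 T
  exact ⟨p, n, h7, h8⟩

end Pool.Agent.H419.SP
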