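import Pool.Agent.H419.SP.Sum

/-! The exceptional sets have small dimension. -/

set_option autoImplicit false
set_option linter.unusedSectionVars false

namespace Pool.Agent.H419.SP

open NumberField IsDedekindDomain Filter Topology MeasureTheory
open Pool.Agent.W540.BE (upto nm mem_upto two_le_nm)
open Pool.Agent.H419.BS (U U_le U_mono U_atTop pnt)
open scoped ENNReal

variable {K : Type} [Field K] [NumberField K] {τ : ℝ}
  (a : HeightOneSpectrum (𝓞 K) → ℝ) (b : HeightOneSpectrum (𝓞 K) → UnitAddCircle)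

/-- the number of cells -/
noncomputable def LL (τ η : ℝ) (N : ℕ) : ℕ := ⌈1 / rho τ η N⌉₊

theorem LL_pos {η : ℝ} (hη : 0 < η) {N : ℕ} (hN : 0 < N) : 0 < LL τ η N :=
  Nat.ceil_pos.2 (one_div_pos.2 (rho_pos hη hN))

theorem inv_LL_le {η : ℝ} (hη : 0 < η) {N : ℕ} (hN : 0 < N) : 1 / (LL τ η N : ℝ) ≤ rho τ η N := by
  have h1 := rho_pos (τ := τ) hη hN
  have h2 : 1 / rho τ η N ≤ LL τ η N := Nat.le_ceil _
  have h3 : 0 < 1 / rho τ η N := one_div_pos.2 h1
  calc 1 / (LL τ η N : ℝ) ≤ 1 / (1 / rho τ η N) := one_div_le_one_div_of_le h3 h2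
    _ = _ := one_div_one_div _

theorem LL_le (h0 : 0 ≤ τ) {η : ℝ} (hη : 0 < η) (hη1 : η ≤ 1) {N : ℕ} (hN : 0 < N) :
    (LL τ η N : ℝ) ≤ 8 / η * (N : ℝ) ^ (1 + τ) := by
  have hN0 : (0 : ℝ) < N := by exact_mod_cast hN
  have hN1 : (1 : ℝ) ≤ N := by exact_mod_cast hN
  have h1 : 1 / rho τ η N = 4 / η * (N : ℝ) ^ (1 + τ) := by
    unfold rho
    rw [Real.rpow_neg hN0.le]
    field_simp
  have h2 : (LL τ η N : ℝ) < 1 / rho τ η N + 1 :=
    Nat.ceil_lt_add_one (one_div_pos.2 (rho_pos hη hN)).le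
  have h3 : (1 : ℝ) ≤ 4 / η * (N : ℝ) ^ (1 + τ) := by
    have h4 : (1 : ℝ) ≤ (N : ℝ) ^ (1 + τ) := Real.one_le_rpow hN1 (by linarith)
    have h5 : (1 : ℝ) ≤ 4 / η := by
      rw [le_div_iff₀ hη]
      linarith
    nlinarith
  rw [h1] at h2
  have e : 8 / η * (N : ℝ) ^ (1 + τ) = 4 / η * (N : ℝ) ^ (1 + τ) + 4 / η * (N : ℝ) ^ (1 + τ) := by
    ring
  rw [e]
  linarith

/-- **The exceptional set along a sequence of scales.** -/
theorem seq_null (ha0 : ∀ v, 0 ≤ a v) (ha1 : ∀ v, a v ≤ 1) (h0 : 0 ≤ τ) (h1 : τ < 1)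
    {η : ℝ} (hη : 0 < η) (hη1 : η ≤ 1) {ρ : ℝ} (hρ : 1 < ρ) (Nt : ℕ → ℕ)
    (hNt : ∀ t, ρ ^ t ≤ MM K τ (Nt t)) {s : ℝ} (hs : 2 * τ / (1 + τ) < s) (hs1 : s < 1)
    {σ : ℝ} (hσ : |σ| ≤ 1) (B : ℕ → Set ℝ)
    (hB : ∀ t, ∀ x ∈ B t, ∀ y : ℝ, |y - x| ≤ rho τ η (Nt t) →
      (y : UnitAddCircle) ∈ WW τ a b η (Nt t) σ) (k : ℤ) :
    Measure.hausdorffMeasure s {x : ℝ | x ∈ Set.Ioc (k : ℝ) (k + 1) ∧ ∃ᶠ t in atTop, x ∈ B t} =
      0 := by
  have hτ1 : 0 < 1 + τ := by linarith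
  have hs0 : 0 ≤ s := le_trans (by positivity) hs.le
  have hρ0 : 0 < ρ := by linarith
  have hMpos : ∀ t, 0 < MM K τ (Nt t) := fun t => (pow_pos hρ0 t).trans_le (hNt t)
  have hNpos : ∀ t, 0 < Nt t := by
    intro t
    rcases Nat.eq_zero_or_pos (Nt t) with h | h
    · exfalso
      have h2 := hMpos t
      have h3 := MM_le_U (K := K) (τ := τ) (Nt t)
      have h4 := U_le (K := K) (Nt t)
      rw [h] at h2 h3 h4
      rw [Nat.cast_zero, mul_zero] at h4
      linarith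
    · exact h
  have hd : (0 : ℝ) < Module.finrank ℚ K := by exact_mod_cast Module.finrank_pos
  -- the exponents
  set κ : ℝ := (1 + τ) * (1 - s) with hκ
  have hκ0 : 0 < κ := mul_pos hτ1 (by linarith)
  have hκ1 : κ < 1 - τ := by
    rw [div_lt_iff₀ hτ1] at hs
    rw [hκ]
    nlinarith
  set κ' : ℝ := (κ + (1 - τ)) / 2 with hκ'
  have hκ'1 : κ' < 1 - τ := by rw [hκ']; linarith
  have hκ'0 : κ < κ' := by rw [hκ']; linarith
  have hκ'pos : 0 < κ' := hκ0.trans hκ'0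
  set θ : ℝ := κ / κ' with hθ
  have hθ0 : 0 < θ := div_pos hκ0 hκ'pos
  have hθ1 : θ < 1 := (div_lt_one hκ'pos).2 hκ'0
  -- the sequence of the scales tends to infinity
  have hNlow : ∀ t, ρ ^ t ≤ Module.finrank ℚ K * Nt t := fun t =>
    (hNt t).trans ((MM_le_U _).trans (U_le _))
  have hNtend : Tendsto Nt atTop atTop := by
    have h2 : Tendsto (fun t : ℕ => (Nt t : ℝ)) atTop atTop := by
      have h3 : Tendsto (fun t : ℕ => ρ ^ t / (Module.finrank ℚ K : ℝ)) atTop atTop :=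
        (tendsto_pow_atTop_atTop_of_one_lt hρ).atTop_div_const hd
      refine tendsto_atTop_mono (fun t => ?_) h3
      rw [div_le_iff₀ hd]
      linarith [hNlow t]
    exact tendsto_natCast_atTop_iff.1 h2
  refine limsup_null k (fun t => LL τ η (Nt t)) (fun t => LL_pos hη (hNpos t)) B
    (fun t => WW τ a b η (Nt t) σ) (fun t => measurable_WW a b η _ σ)
    (fun t x hx y hxy => hB t x hx y (hxy.trans (inv_LL_le hη (hNpos t)))) s hs0 ?_
    (fun t => Module.finrank ℚ K * (ρ⁻¹) ^ t) ?_ ?_ ?_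
  · -- summability
    set C : ℝ := (8 / η) ^ (1 - s) * (32 * Module.finrank ℚ K / η ^ 2) with hC
    have hgeo : Summable fun t : ℕ => C * (ρ ^ (θ - 1)) ^ t := by
      refine (summable_geometric_of_lt_one (by positivity) ?_).mul_left C
      exact Real.rpow_lt_one_of_one_lt_of_neg hρ (by linarith)
    refine Summable.of_norm_bounded_eventually_nat hgeo ?_
    filter_upwards [hNtend.eventually (growth (K := K) h0 hκ'1)] with t ht
    have hLpos : (0 : ℝ) < LL τ η (Nt t) := by exact_mod_cast LL_pos hη (hNpos t)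
    have hNR : (0 : ℝ) < Nt t := by exact_mod_cast hNpos t
    have hW0 : 0 ≤ (volume : Measure UnitAddCircle).real (WW τ a b η (Nt t) σ) :=
      measureReal_nonneg
    rw [Real.norm_of_nonneg (by positivity)]
    have h2 := measure_WW a b ha0 ha1 h0 hη hη1 (hNpos t) (hMpos t) hσ
    have h3 : (LL τ η (Nt t) : ℝ) * (1 / (LL τ η (Nt t) : ℝ)) ^ s =
        (LL τ η (Nt t) : ℝ) ^ (1 - s) := by
      rw [one_div, Real.inv_rpow hLpos.le, ← Real.rpow_neg hLpos.le, Real.rpow_sub hLpos,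
        Real.rpow_one, Real.rpow_neg hLpos.le, div_eq_mul_inv]
    have h4 : (LL τ η (Nt t) : ℝ) ^ (1 - s) ≤ (8 / η) ^ (1 - s) * (Nt t : ℝ) ^ κ := by
      calc (LL τ η (Nt t) : ℝ) ^ (1 - s) ≤ (8 / η * (Nt t : ℝ) ^ (1 + τ)) ^ (1 - s) :=
            Real.rpow_le_rpow hLpos.le (LL_le h0 hη hη1 (hNpos t)) (by linarith)
        _ = _ := by
            rw [Real.mul_rpow (by positivity) (by positivity), ← Real.rpow_mul hNR.le]
    have h5 : (Nt t : ℝ) ^ κ ≤ MM K τ (Nt t) ^ θ := by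
      have e : (Nt t : ℝ) ^ κ = ((Nt t : ℝ) ^ κ') ^ θ := by
        rw [← Real.rpow_mul hNR.le, hθ]
        congr 1
        field_simp
      rw [e]
      exact Real.rpow_le_rpow (by positivity) ht hθ0.le
    have h6 : MM K τ (Nt t) ^ θ / MM K τ (Nt t) ≤ (ρ ^ (θ - 1)) ^ t := by
      have e1 : MM K τ (Nt t) ^ θ / MM K τ (Nt t) = MM K τ (Nt t) ^ (θ - 1) := by
        rw [Real.rpow_sub (hMpos t), Real.rpow_one]
      have e2 : (ρ ^ (θ - 1)) ^ t = (ρ ^ t) ^ (θ - 1) := by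
        rw [← Real.rpow_natCast, ← Real.rpow_mul hρ0.le, ← Real.rpow_natCast,
          ← Real.rpow_mul hρ0.le, mul_comm]
      rw [e1, e2]
      exact Real.rpow_le_rpow_of_nonpos (pow_pos hρ0 t) (hNt t) (by linarith)
    calc (LL τ η (Nt t) : ℝ) * (volume : Measure UnitAddCircle).real (WW τ a b η (Nt t) σ) *
          (1 / (LL τ η (Nt t) : ℝ)) ^ s =
          (LL τ η (Nt t) : ℝ) ^ (1 - s) *
            (volume : Measure UnitAddCircle).real (WW τ a b η (Nt t) σ) := by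
          rw [← h3]; ring
      _ ≤ ((8 / η) ^ (1 - s) * MM K τ (Nt t) ^ θ) *
          (32 * Module.finrank ℚ K / η ^ 2 / MM K τ (Nt t)) := by
          refine mul_le_mul (h4.trans ?_) h2 hW0 ?_
          · exact mul_le_mul_of_nonneg_left h5 (by positivity)
          · have := hMpos t
            positivity
      _ = C * (MM K τ (Nt t) ^ θ / MM K τ (Nt t)) := by rw [hC]; ring
      _ ≤ C * (ρ ^ (θ - 1)) ^ t := mul_le_mul_of_nonneg_left h6 (by positivity)
  · intro t t' h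
    refine mul_le_mul_of_nonneg_left ?_ hd.le
    exact pow_le_pow_of_le_one (by positivity) (inv_le_one_of_one_le₀ hρ.le) h
  · have := (tendsto_pow_atTop_nhds_zero_of_lt_one (r := ρ⁻¹) (by positivity)
      (inv_lt_one_of_one_lt₀ hρ)).const_mul (Module.finrank ℚ K : ℝ)
    rwa [mul_zero] at this
  · intro t
    have hNR : (0 : ℝ) < Nt t := by exact_mod_cast hNpos t
    have hN1 : (1 : ℝ) ≤ Nt t := by exact_mod_cast hNpos t
    refine (inv_LL_le hη (hNpos t)).trans ?_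
    unfold rho
    have h2 : (Nt t : ℝ) ^ (-(1 + τ)) ≤ (Nt t : ℝ)⁻¹ := by
      rw [← Real.rpow_neg_one]
      exact Real.rpow_le_rpow_of_exponent_le hN1 (by linarith)
    have h3 : (Nt t : ℝ)⁻¹ ≤ Module.finrank ℚ K * ρ⁻¹ ^ t := by
      rw [inv_pow, inv_eq_one_div, div_le_iff₀ hNR]
      have h4 := hNlow t
      have h5 : 0 < ρ ^ t := pow_pos hρ0 t
      calc (1 : ℝ) = ρ ^ t * (ρ ^ t)⁻¹ := (mul_inv_cancel₀ h5.ne').symm
        _ ≤ (Module.finrank ℚ K * Nt t) * (ρ ^ t)⁻¹ := mul_le_mul_of_nonneg_right h4 (by positivity)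
        _ = _ := by ring
    calc η / 4 * (Nt t : ℝ) ^ (-(1 + τ)) ≤ 1 * (Nt t : ℝ) ^ (-(1 + τ)) :=
          mul_le_mul_of_nonneg_right (by linarith) (by positivity)
      _ = (Nt t : ℝ) ^ (-(1 + τ)) := one_mul _
      _ ≤ _ := h2.trans h3

theorem SS_mono (ha0 : ∀ v, 0 ≤ a v) {M N : ℕ} (h : M ≤ N) (α : ℝ) :
    SS τ a b M α ≤ SS τ a b N α := by
  unfold SS
  exact Finset.sum_le_sum_of_subset_of_nonneg
    (fun v hv => mem_upto.2 ((mem_upto.1 hv).trans h))
    fun v _ _ => mul_nonneg (ha0 v) (ind_nonneg _ _ _ _ _)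

theorem AA_sub (ha0 : ∀ v, 0 ≤ a v) (ha1 : ∀ v, a v ≤ 1) {M N : ℕ} (h : M ≤ N) :
    AA τ a M ≤ AA τ a N ∧ AA τ a N - AA τ a M ≤ MM K τ N - MM K τ M := by
  classical
  have hsub : upto K M ⊆ upto K N := fun v hv => mem_upto.2 ((mem_upto.1 hv).trans h)
  have e1 : AA τ a N - AA τ a M = ∑ v ∈ upto K N \ upto K M, a v * m (rad τ v) := by
    unfold AA
    rw [sub_eq_iff_eq_add]
    exact (Finset.sum_sdiff hsub).symm
  have e2 : MM K τ N - MM K τ M = ∑ v ∈ upto K N \ upto K M, m (rad τ v) := by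
    unfold MM
    rw [sub_eq_iff_eq_add]
    exact (Finset.sum_sdiff hsub).symm
  constructor
  · have h2 : 0 ≤ AA τ a N - AA τ a M := by
      rw [e1]
      exact Finset.sum_nonneg fun v _ => mul_nonneg (ha0 v) (m_nonneg (rad_pos v).le)
    linarith
  · rw [e1, e2]
    refine Finset.sum_le_sum fun v _ => ?_
    calc a v * m (rad τ v) ≤ 1 * m (rad τ v) :=
          mul_le_mul_of_nonneg_right (ha1 v) (m_nonneg (rad_pos v).le)
      _ = _ := one_mul _

/-- **The exceptional set of the weights `a`.** -/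
theorem exc_null (ha0 : ∀ v, 0 ≤ a v) (ha1 : ∀ v, a v ≤ 1) (h0 : 0 ≤ τ) (h1 : τ < 1)
    {η : ℝ} (hη : 0 < η) (hη1 : η ≤ 1) {s : ℝ} (hs : 2 * τ / (1 + τ) < s) (hs1 : s < 1) :
    Measure.hausdorffMeasure s {x : ℝ | ∃ᶠ N : ℕ in atTop,
      3 * η * MM K τ N ≤ |SS τ a b N x - AA τ a N|} = 0 := by
  classical
  set ρ : ℝ := 1 + η with hρ
  have hρ1 : 1 < ρ := by rw [hρ]; linarith
  have hρ0 : 0 < ρ := by linarith
  have hMtop := MM_atTop (K := K) h0 h1
  have hex : ∀ t : ℕ, ∃ N, ρ ^ t ≤ MM K τ N := fun t =>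
    (hMtop.eventually_ge_atTop (ρ ^ t)).exists
  let N1 : ℕ → ℕ := fun t => Nat.find (hex t)
  have hN1 : ∀ t, ρ ^ t ≤ MM K τ (N1 t) := fun t => Nat.find_spec (hex t)
  have hN1le : ∀ t N, ρ ^ t ≤ MM K τ N → N1 t ≤ N := fun t N hN => Nat.find_min' (hex t) hN
  have hN1lt : ∀ t N, MM K τ N < ρ ^ t → N < N1 t := by
    intro t N hN
    by_contra hcon
    push Not at hcon
    exact absurd ((hN1 t).trans (MM_mono hcon)) (not_le.2 hN)
  have hN1lt' : ∀ t N, N < N1 t → MM K τ N < ρ ^ t := by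
    intro t N hN
    by_contra hcon
    push Not at hcon
    exact absurd (hN1le t N hcon) (not_le.2 hN)
  let N2 : ℕ → ℕ := fun t => max (N1 t) (N1 (t + 1) - 1)
  have hN2 : ∀ t, ρ ^ t ≤ MM K τ (N2 t) := fun t => (hN1 t).trans (MM_mono (le_max_left _ _))
  have hpos : ∀ N : ℕ, 0 < MM K τ N → 0 < N := by
    intro N hN
    rcases Nat.eq_zero_or_pos N with h | h
    · exfalso
      have h3 := MM_le_U (K := K) (τ := τ) N
      have h4 := U_le (K := K) N
      rw [h] at h3 h4 hN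
      rw [Nat.cast_zero, mul_zero] at h4
      linarith
    · exact h
  have hcov : {x : ℝ | ∃ᶠ N : ℕ in atTop, 3 * η * MM K τ N ≤ |SS τ a b N x - AA τ a N|} ⊆
      ⋃ k : ℤ, ({x : ℝ | x ∈ Set.Ioc (k : ℝ) (k + 1) ∧
        ∃ᶠ t in atTop, x ∈ BadM τ a b η (N1 t)} ∪ {x : ℝ | x ∈ Set.Ioc (k : ℝ) (k + 1) ∧
        ∃ᶠ t in atTop, x ∈ BadP τ a b η (N2 t)}) := by
    intro x hx
    have hxk : x ∈ Set.Ioc ((⌈x⌉ - 1 : ℤ) : ℝ) ((⌈x⌉ - 1 : ℤ) + 1) := by
      push_cast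
      constructor
      · linarith [Int.ceil_lt_add_one x]
      · linarith [Int.le_ceil x]
    rw [Set.mem_iUnion]
    refine ⟨⌈x⌉ - 1, ?_⟩
    have hfr : ∃ᶠ t in atTop, x ∈ BadM τ a b η (N1 t) ∨ x ∈ BadP τ a b η (N2 t) := by
      rw [frequently_atTop]
      intro T
      obtain ⟨N, hN, hNT⟩ := ((show ∃ᶠ N : ℕ in atTop,
        3 * η * MM K τ N ≤ |SS τ a b N x - AA τ a N| from hx).and_eventually
        (hMtop.eventually_ge_atTop (ρ ^ T))).exists
      have hM1 : 1 ≤ MM K τ N := (one_le_pow₀ hρ1.le).trans hNT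
      obtain ⟨t, ht1, ht2⟩ := exists_nat_pow_near hM1 hρ1
      have htT : T ≤ t := by
        have h2 : ρ ^ T < ρ ^ (t + 1) := hNT.trans_lt ht2
        have h3 := (pow_lt_pow_iff_right₀ hρ1).1 h2
        omega
      refine ⟨t, htT, ?_⟩
      have hle1 : N1 t ≤ N := hN1le t N ht1
      have hlt2 : N < N1 (t + 1) := hN1lt (t + 1) N ht2
      have hN2eq : N2 t = N1 (t + 1) - 1 := max_eq_right (by omega)
      have hle2 : N ≤ N2 t := by rw [hN2eq]; omega
      have hM2 : MM K τ (N2 t) < ρ ^ (t + 1) := hN1lt' (t + 1) _ (by rw [hN2eq]; omega)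
      have hMN : MM K τ N < ρ ^ (t + 1) := ht2
      have e : ρ ^ (t + 1) = ρ * ρ ^ t := by ring
      have hMN1 : 0 ≤ MM K τ (N1 t) := MM_nonneg _
      by_contra hcon
      push Not at hcon
      obtain ⟨hc1, hc2⟩ := hcon
      have hc1' : AA τ a (N1 t) - η * MM K τ (N1 t) < SS τ a b (N1 t) x := by
        by_contra h
        exact hc1 (not_lt.1 h)
      have hc2' : SS τ a b (N2 t) x < AA τ a (N2 t) + η * MM K τ (N2 t) := by
        by_contra h
        exact hc2 (not_lt.1 h)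
      have hS1 := SS_mono (τ := τ) a b ha0 hle1 x
      have hS2 := SS_mono (τ := τ) a b ha0 hle2 x
      obtain ⟨hA1, hA1'⟩ := AA_sub (τ := τ) a ha0 ha1 hle1
      obtain ⟨hA2, hA2'⟩ := AA_sub (τ := τ) a ha0 ha1 hle2
      have hmono1 := MM_mono (K := K) (τ := τ) hle1
      have hmono2 := MM_mono (K := K) (τ := τ) hle2
      -- the increments
      have hinc1 : MM K τ N - MM K τ (N1 t) ≤ η * MM K τ (N1 t) := by
        have h2 : MM K τ N ≤ ρ * MM K τ (N1 t) := by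
          calc MM K τ N ≤ ρ * ρ ^ t := by rw [← e]; exact hMN.le
            _ ≤ _ := mul_le_mul_of_nonneg_left (hN1 t) hρ0.le
        rw [hρ] at h2
        linarith
      have hinc2 : MM K τ (N2 t) ≤ ρ * MM K τ N := by
        calc MM K τ (N2 t) ≤ ρ * ρ ^ t := by rw [← e]; exact hM2.le
          _ ≤ _ := mul_le_mul_of_nonneg_left ht1 hρ0.le
      have hmul1 : η * MM K τ (N1 t) ≤ η * MM K τ N := mul_le_mul_of_nonneg_left hmono1 hη.le
      have hN' : 0 < MM K τ N := lt_of_lt_of_le one_pos hM1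
      have hfin : |SS τ a b N x - AA τ a N| < 3 * η * MM K τ N := by
        rw [abs_lt]
        constructor
        · linarith
        · have h2 : η * MM K τ (N2 t) ≤ η * (ρ * MM K τ N) :=
            mul_le_mul_of_nonneg_left hinc2 hη.le
          have h3 : η * (ρ * MM K τ N) ≤ 2 * η * MM K τ N := by
            have h4 : ρ ≤ 2 := by rw [hρ]; linarith
            calc η * (ρ * MM K τ N) = ρ * (η * MM K τ N) := by ring
              _ ≤ 2 * (η * MM K τ N) := mul_le_mul_of_nonneg_right h4 (by positivity)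
              _ = _ := by ring
          have h4 : MM K τ (N2 t) - MM K τ N ≤ η * MM K τ N := by
            rw [hρ] at hinc2
            linarith
          linarith
      exact absurd hN (not_le.2 hfin)
    rw [frequently_or_distrib] at hfr
    rcases hfr with h | h
    · exact Or.inl ⟨hxk, h⟩
    · exact Or.inr ⟨hxk, h⟩
  refine measure_mono_null hcov (measure_iUnion_null fun k => measure_union_null ?_ ?_)
  · exact seq_null a b ha0 ha1 h0 h1 hη hη1 hρ1 N1 hN1 hs hs1 (σ := -1) (by simp) _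
      (fun t x hx y hxy => badM_stable a b ha0 ha1 h0 hη
        (hpos _ ((pow_pos hρ0 t).trans_le (hN1 t))) hx hxy) k
  · exact seq_null a b ha0 ha1 h0 h1 hη hη1 hρ1 N2 hN2 hs hs1 (σ := 1) (by simp) _
      (fun t x hx y hxy => badP_stable a b ha0 ha1 h0 hη
        (hpos _ ((pow_pos hρ0 t).trans_le (hN2 t))) hx hxy) k

end Pool.Agent.H419.SP
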