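import Mathlib

/-! Correlations of the sets `‖n x - b‖ ≤ δ` on the circle. -/

set_option autoImplicit false

namespace Pool.Agent.H419.SP

open MeasureTheory Set

/-- the arcs -/
def A (n : ℕ) (b : UnitAddCircle) (δ : ℝ) : Set UnitAddCircle := {x | ‖n • x - b‖ ≤ δ}

/-- the measure of the arcs -/
noncomputable def m (δ : ℝ) : ℝ := min 1 (2 * δ)

theorem m_nonneg {δ : ℝ} (hδ : 0 ≤ δ) : 0 ≤ m δ := le_min zero_le_one (by linarith)

theorem m_le (δ : ℝ) : m δ ≤ 2 * δ := min_le_right _ _

theorem m_le_one (δ : ℝ) : m δ ≤ 1 := min_le_left _ _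

theorem m_mono {δ δ' : ℝ} (h : δ ≤ δ') : m δ ≤ m δ' := min_le_min le_rfl (by linarith)

theorem m_add_le {δ ε : ℝ} (hε : 0 ≤ ε) : m (δ + ε) ≤ m δ + 2 * ε := by
  unfold m
  rcases min_cases 1 (2 * δ) with h | h
  · rw [h.1]
    linarith [min_le_left 1 (2 * (δ + ε))]
  · rw [h.1]
    linarith [min_le_right 1 (2 * (δ + ε))]

theorem continuous_nsmul_sub (n : ℕ) (b : UnitAddCircle) :
    Continuous fun x : UnitAddCircle => ‖n • x - b‖ := by fun_prop

theorem measurableSet_A (n : ℕ) (b : UnitAddCircle) (δ : ℝ) : MeasurableSet (A n b δ) :=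
  (isClosed_le (continuous_nsmul_sub n b) continuous_const).measurableSet

theorem measure_A {n : ℕ} (hn : n ≠ 0) (b : UnitAddCircle) {δ : ℝ} (hδ : 0 ≤ δ) :
    (volume : Measure UnitAddCircle).real (A n b δ) = m δ := by
  have h1 : A n b δ = (fun x : UnitAddCircle => (n : ℤ) • x) ⁻¹' Metric.closedBall b δ := by
    ext x
    simp only [A, mem_preimage, Metric.mem_closedBall, dist_eq_norm, natCast_zsmul]
    rfl
  have h2 := (MeasureTheory.Measure.measurePreserving_zsmul (volume : Measure UnitAddCircle)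
    (n := (n : ℤ)) (by exact_mod_cast hn)).measure_preimage
    (Metric.isClosed_closedBall (x := b) (ε := δ)).measurableSet.nullMeasurableSet
  rw [measureReal_def, h1, h2, AddCircle.volume_closedBall,
    ENNReal.toReal_ofReal (le_min zero_le_one (by linarith)), m]

/-- the number of integers in an interval -/
theorem card_int (c r : ℝ) (hr : 0 ≤ r) (F : Finset ℤ) (hF : ∀ s ∈ F, |c + s| ≤ r) :
    (F.card : ℝ) ≤ 2 * r + 1 := by
  have hsub : F ⊆ Finset.Icc ⌈-r - c⌉ ⌊r - c⌋ := by
    intro s hs
    have h := abs_le.1 (hF s hs)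
    rw [Finset.mem_Icc, Int.ceil_le, Int.le_floor]
    constructor <;> linarith [h.1, h.2]
  have h1 := Finset.card_le_card hsub
  rw [Int.card_Icc] at h1
  have h2 : ((⌊r - c⌋ + 1 - ⌈-r - c⌉).toNat : ℝ) ≤ 2 * r + 1 := by
    have h3 : ((⌊r - c⌋ + 1 - ⌈-r - c⌉).toNat : ℤ) = max (⌊r - c⌋ + 1 - ⌈-r - c⌉) 0 :=
      Int.toNat_eq_max _
    have h4 : (((⌊r - c⌋ + 1 - ⌈-r - c⌉).toNat : ℤ) : ℝ) =
        max ((⌊r - c⌋ : ℝ) + 1 - ⌈-r - c⌉) 0 := by
      rw [h3]
      push_cast
      rfl
    have h5 : ((⌊r - c⌋ + 1 - ⌈-r - c⌉).toNat : ℝ) =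
        (((⌊r - c⌋ + 1 - ⌈-r - c⌉).toNat : ℤ) : ℝ) := by push_cast; rfl
    rw [h5, h4]
    refine max_le ?_ (by linarith)
    have h6 := Int.floor_le (r - c)
    have h7 := Int.le_ceil (-r - c)
    linarith
  exact le_trans (by exact_mod_cast h1) h2

open Classical in
/-- the number of the shifts -/
theorem count {n n' : ℕ} (hn' : n' ≠ 0) (hc : n.Coprime n') (b : UnitAddCircle) {δ : ℝ}
    (hδ : 0 ≤ δ) (x : UnitAddCircle) :
    (((Finset.range n').filter fun j : ℕ =>
      x + ((j / n' : ℝ) : UnitAddCircle) ∈ A n b δ).card : ℝ) ≤ n' * m δ + 1 := by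
  set F := (Finset.range n').filter fun j : ℕ => x + ((j / n' : ℝ) : UnitAddCircle) ∈ A n b δ
    with hF
  have hn'0 : (0 : ℝ) < n' := by positivity
  have h1 : (F.card : ℝ) ≤ n' := by
    have h := Finset.card_filter_le (Finset.range n')
      (fun j : ℕ => x + ((j / n' : ℝ) : UnitAddCircle) ∈ A n b δ)
    rw [Finset.card_range] at h
    exact_mod_cast h
  obtain ⟨c, hcx⟩ : ∃ c : ℝ, (c : UnitAddCircle) = n • x - b :=
    QuotientAddGroup.mk_surjective _
  -- the integers
  let y : ℕ → ℝ := fun j => c + n * j / n'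
  let s : ℕ → ℤ := fun j => n * j - n' * round (y j)
  have hy : ∀ j : ℕ, (y j : UnitAddCircle) =
      n • (x + ((j / n' : ℝ) : UnitAddCircle)) - b := by
    intro j
    have e1 : y j = c + n • ((j : ℝ) / n') := by
      simp only [y, nsmul_eq_mul]
      ring
    rw [e1, AddCircle.coe_add, hcx, AddCircle.coe_nsmul, nsmul_add]
    abel
  have hs : ∀ j ∈ F, |c * n' + s j| ≤ δ * n' := by
    intro j hj
    have h2 : ‖n • (x + ((j / n' : ℝ) : UnitAddCircle)) - b‖ ≤ δ := (Finset.mem_filter.1 hj).2
    rw [← hy j, UnitAddCircle.norm_eq] at h2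
    have e2 : c * n' + (s j : ℝ) = (y j - round (y j)) * n' := by
      simp only [s, y]
      push_cast
      field_simp
      ring
    rw [e2, abs_mul, abs_of_pos hn'0]
    exact mul_le_mul_of_nonneg_right h2 hn'0.le
  have hinj : Set.InjOn s F := by
    intro j hj j' hj' hjj
    simp only [s] at hjj
    have hlt : j < n' := Finset.mem_range.1 (Finset.mem_filter.1 hj).1
    have hlt' : j' < n' := Finset.mem_range.1 (Finset.mem_filter.1 hj').1
    have h3 : (n' : ℤ) ∣ n * (j - j') := ⟨round (y j) - round (y j'), by linarith⟩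
    have h4 : (n' : ℤ) ∣ (j : ℤ) - j' := by
      refine IsCoprime.dvd_of_dvd_mul_left ?_ h3
      exact (Nat.isCoprime_iff_coprime.2 hc).symm
    have h5 : (j : ℤ) - j' = 0 := by
      refine Int.eq_zero_of_abs_lt_dvd h4 ?_
      rw [abs_lt]
      constructor <;> omega
    omega
  have h2 : (F.card : ℝ) ≤ 2 * (δ * n') + 1 := by
    rw [← Finset.card_image_of_injOn hinj]
    refine card_int (c * n') (δ * n') (by positivity) _ fun t ht => ?_
    obtain ⟨j, hj, rfl⟩ := Finset.mem_image.1 ht
    exact hs j hj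
  unfold m
  rcases min_cases 1 (2 * δ) with h | h
  · rw [h.1]; linarith
  · rw [h.1]; linarith

/-- **Correlation of two sets with coprime multipliers.** -/
theorem pair {n n' : ℕ} (hn' : n' ≠ 0) (hc : n.Coprime n') (b b' : UnitAddCircle)
    {δ δ' : ℝ} (hδ : 0 ≤ δ) (hδ' : 0 ≤ δ') :
    (volume : Measure UnitAddCircle).real (A n b δ ∩ A n' b' δ') ≤ m δ * m δ' + m δ' / n' := by
  classical
  have hn'0 : (0 : ℝ) < n' := by positivity
  let sh : ℕ → UnitAddCircle := fun j => ((j / n' : ℝ) : UnitAddCircle)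
  have hsh : ∀ j : ℕ, n' • sh j = 0 := by
    intro j
    simp only [sh]
    rw [← AddCircle.coe_nsmul, nsmul_eq_mul, mul_div_cancel₀ _ hn'0.ne']
    have : ((j : ℝ) : UnitAddCircle) = 0 := by
      have h := AddCircle.coe_period (p := (1 : ℝ))
      rw [← nsmul_one j, AddCircle.coe_nsmul, h, nsmul_zero]
    exact this
  -- each shift has the same measure
  have hshift : ∀ j : ℕ, (volume : Measure UnitAddCircle).real (A n b δ ∩ A n' b' δ') =
      (volume : Measure UnitAddCircle).real ({x | x + sh j ∈ A n b δ} ∩ A n' b' δ') := by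
    intro j
    have h1 : {x | x + sh j ∈ A n b δ} ∩ A n' b' δ' =
        (fun x => x + sh j) ⁻¹' (A n b δ ∩ A n' b' δ') := by
      ext x
      simp only [mem_inter_iff, mem_ofPred_eq, mem_preimage, and_congr_right_iff]
      intro _
      unfold A
      rw [mem_ofPred_eq, mem_ofPred_eq, nsmul_add, hsh, add_zero]
    rw [h1, measureReal_def, measureReal_def, measure_preimage_add_right]
  have hmeas : ∀ j : ℕ, MeasurableSet ({x | x + sh j ∈ A n b δ} ∩ A n' b' δ') := fun j =>
    ((measurableSet_A n b δ).preimage (measurable_add_const _)).inter (measurableSet_A n' b' δ')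
  have hsum : (n' : ℝ) * (volume : Measure UnitAddCircle).real (A n b δ ∩ A n' b' δ') ≤
      (n' * m δ + 1) * m δ' := by
    have h1 : (n' : ℝ) * (volume : Measure UnitAddCircle).real (A n b δ ∩ A n' b' δ') =
        ∑ j ∈ Finset.range n',
          (volume : Measure UnitAddCircle).real ({x | x + sh j ∈ A n b δ} ∩ A n' b' δ') := by
      rw [Finset.sum_congr rfl fun j _ => (hshift j).symm, Finset.sum_const, Finset.card_range,
        nsmul_eq_mul]
    have h2 : ∀ j : ℕ, (volume : Measure UnitAddCircle).real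
        ({x | x + sh j ∈ A n b δ} ∩ A n' b' δ') =
        ∫ x, ({x | x + sh j ∈ A n b δ} ∩ A n' b' δ').indicator (fun _ => (1 : ℝ)) x := by
      intro j
      rw [integral_indicator_const _ (hmeas j), smul_eq_mul, mul_one]
    rw [h1, Finset.sum_congr rfl fun j _ => h2 j, ← integral_finsetSum]
    · have hn0' : n' ≠ 0 := hn'
      have h3 : ∫ x, (A n' b' δ').indicator (fun _ => (n' * m δ + 1 : ℝ)) x =
          (n' * m δ + 1) * m δ' := by
        rw [integral_indicator_const _ (measurableSet_A n' b' δ'), measure_A hn0' b' hδ',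
          smul_eq_mul, mul_comm]
      rw [← h3]
      refine integral_mono ?_ ?_ fun x => ?_
      · exact integrable_finsetSum _ fun j _ => (integrable_const _).indicator (hmeas j)
      · exact (integrable_const _).indicator (measurableSet_A n' b' δ')
      · simp only
        by_cases hx : x ∈ A n' b' δ'
        · rw [Set.indicator_of_mem hx]
          have h4 : ∑ j ∈ Finset.range n',
              ({x | x + sh j ∈ A n b δ} ∩ A n' b' δ').indicator (fun _ => (1 : ℝ)) x =
              (((Finset.range n').filter fun j : ℕ =>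
                x + ((j / n' : ℝ) : UnitAddCircle) ∈ A n b δ).card : ℝ) := by
            rw [Finset.card_filter, Nat.cast_sum]
            refine Finset.sum_congr rfl fun j _ => ?_
            by_cases hj : x + ((j / n' : ℝ) : UnitAddCircle) ∈ A n b δ
            · rw [if_pos hj, Set.indicator_of_mem]
              · simp
              · exact ⟨hj, hx⟩
            · rw [if_neg hj, Set.indicator_of_notMem]
              · simp
              · exact fun h => hj h.1
          rw [h4]
          exact count hn' hc b hδ x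
        · rw [Set.indicator_of_notMem hx]
          refine le_of_eq (Finset.sum_eq_zero fun j _ => ?_)
          rw [Set.indicator_of_notMem]
          exact fun h => hx h.2
    · exact fun j _ => (integrable_const _).indicator (hmeas j)
  have h5 : (volume : Measure UnitAddCircle).real (A n b δ ∩ A n' b' δ') ≤
      ((n' * m δ + 1) * m δ') / n' := by
    rw [le_div_iff₀ hn'0]
    linarith
  refine h5.trans (le_of_eq ?_)
  field_simp

end Pool.Agent.H419.SP
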