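import Pool.Agent.H419.SP.Pair

/-! The variance of the number of solutions. -/

set_option autoImplicit false

namespace Pool.Agent.H419.SP

open MeasureTheory Set

section

variable {V : Type} (s : Finset V) (n : V → ℕ) (a : V → ℝ) (b : V → UnitAddCircle) (δ : V → ℝ)

/-- indicator functions of the arcs -/
noncomputable def ind (v : V) (x : UnitAddCircle) : ℝ :=
  (A (n v) (b v) (δ v)).indicator (fun _ => (1 : ℝ)) x

/-- the discrepancy -/
noncomputable def disc (x : UnitAddCircle) : ℝ := ∑ v ∈ s, a v * (ind n b δ v x - m (δ v))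

theorem integrable_ind (v : V) : Integrable (ind n b δ v) (volume : Measure UnitAddCircle) :=
  (integrable_const _).indicator (measurableSet_A _ _ _)

theorem integral_ind (hn : ∀ v, n v ≠ 0) (hδ : ∀ v ∈ s, 0 ≤ δ v) {v : V} (hv : v ∈ s) :
    ∫ x : UnitAddCircle, ind n b δ v x = m (δ v) := by
  unfold ind
  rw [integral_indicator_const _ (measurableSet_A _ _ _), measure_A (hn v) (b v) (hδ v hv),
    smul_eq_mul, mul_one]

theorem ind_mul (v w : V) (x : UnitAddCircle) : ind n b δ v x * ind n b δ w x =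
    (A (n v) (b v) (δ v) ∩ A (n w) (b w) (δ w)).indicator (fun _ => (1 : ℝ)) x := by
  unfold ind
  by_cases hv : x ∈ A (n v) (b v) (δ v) <;> by_cases hw : x ∈ A (n w) (b w) (δ w)
  · rw [Set.indicator_of_mem hv, Set.indicator_of_mem hw,
      Set.indicator_of_mem (show x ∈ A (n v) (b v) (δ v) ∩ A (n w) (b w) (δ w) from ⟨hv, hw⟩),
      one_mul]
  · rw [Set.indicator_of_notMem hw, Set.indicator_of_notMem
      (show x ∉ A (n v) (b v) (δ v) ∩ A (n w) (b w) (δ w) from fun h => hw h.2), mul_zero]
  · rw [Set.indicator_of_notMem hv, Set.indicator_of_notMem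
      (show x ∉ A (n v) (b v) (δ v) ∩ A (n w) (b w) (δ w) from fun h => hv h.1), zero_mul]
  · rw [Set.indicator_of_notMem hv, Set.indicator_of_notMem
      (show x ∉ A (n v) (b v) (δ v) ∩ A (n w) (b w) (δ w) from fun h => hv h.1), zero_mul]

theorem cov_eq (hn : ∀ v, n v ≠ 0) (hδ : ∀ v ∈ s, 0 ≤ δ v) {v w : V} (hv : v ∈ s) (hw : w ∈ s) :
    ∫ x : UnitAddCircle, (ind n b δ v x - m (δ v)) * (ind n b δ w x - m (δ w)) =
      (volume : Measure UnitAddCircle).real (A (n v) (b v) (δ v) ∩ A (n w) (b w) (δ w)) -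
        m (δ v) * m (δ w) := by
  have h1 : Integrable (fun x => ind n b δ v x * ind n b δ w x)
      (volume : Measure UnitAddCircle) := by
    simp only [ind_mul]
    exact (integrable_const _).indicator ((measurableSet_A _ _ _).inter (measurableSet_A _ _ _))
  have h2 : Integrable (fun x => m (δ w) * ind n b δ v x) (volume : Measure UnitAddCircle) :=
    (integrable_ind n b δ v).const_mul _
  have h3 : Integrable (fun x => m (δ v) * ind n b δ w x) (volume : Measure UnitAddCircle) :=
    (integrable_ind n b δ w).const_mul _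
  have e : (fun x : UnitAddCircle => (ind n b δ v x - m (δ v)) * (ind n b δ w x - m (δ w))) =
      fun x => ind n b δ v x * ind n b δ w x - m (δ w) * ind n b δ v x -
        m (δ v) * ind n b δ w x + m (δ v) * m (δ w) := by
    funext x
    ring
  have h5 : Integrable (fun x => ind n b δ v x * ind n b δ w x - m (δ w) * ind n b δ v x)
      (volume : Measure UnitAddCircle) := h1.sub h2
  have h4 : Integrable (fun x => ind n b δ v x * ind n b δ w x - m (δ w) * ind n b δ v x -
      m (δ v) * ind n b δ w x) (volume : Measure UnitAddCircle) := h5.sub h3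
  rw [e, integral_add h4 (integrable_const _), integral_sub h5 h3,
    integral_sub h1 h2, integral_const_mul, integral_const_mul, integral_const]
  simp only [ind_mul]
  rw [integral_indicator_const _ ((measurableSet_A _ _ _).inter (measurableSet_A _ _ _)),
    integral_ind s n b δ hn hδ hv, integral_ind s n b δ hn hδ hw]
  have h6 : (volume : Measure UnitAddCircle).real univ = 1 := by
    rw [measureReal_def, UnitAddCircle.measure_univ, ENNReal.toReal_one]
  rw [h6]
  simp only [smul_eq_mul]
  ring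

open Classical in
/-- the bound for the covariances -/
noncomputable def cb (v w : V) : ℝ :=
  if n v ≤ n w then m (δ w) / n w + (if (n v).Coprime (n w) then 0 else m (δ w)) else 0

open Classical in
theorem cb_nonneg (hδ : ∀ v ∈ s, 0 ≤ δ v) {v w : V} (hw : w ∈ s) : 0 ≤ cb n δ v w := by
  unfold cb
  have := m_nonneg (hδ w hw)
  split_ifs <;> positivity

theorem cov_le (hn : ∀ v, n v ≠ 0) (hδ : ∀ v ∈ s, 0 ≤ δ v) {v w : V} (hv : v ∈ s) (hw : w ∈ s) :
    (volume : Measure UnitAddCircle).real (A (n v) (b v) (δ v) ∩ A (n w) (b w) (δ w)) -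
        m (δ v) * m (δ w) ≤ cb n δ v w + cb n δ w v := by
  classical
  have hmv := m_nonneg (hδ v hv)
  have hmw := m_nonneg (hδ w hw)
  have hle : ∀ v w : V, v ∈ s → w ∈ s → n v ≤ n w →
      (volume : Measure UnitAddCircle).real (A (n v) (b v) (δ v) ∩ A (n w) (b w) (δ w)) -
        m (δ v) * m (δ w) ≤ cb n δ v w := by
    intro v w hv hw hvw
    have hmv := m_nonneg (hδ v hv)
    have hmw := m_nonneg (hδ w hw)
    unfold cb
    rw [if_pos hvw]
    by_cases hc : (n v).Coprime (n w)
    · rw [if_pos hc, add_zero]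
      have := pair (hn w) hc (b v) (b w) (hδ v hv) (hδ w hw)
      linarith
    · rw [if_neg hc]
      have h1 : (volume : Measure UnitAddCircle).real
          (A (n v) (b v) (δ v) ∩ A (n w) (b w) (δ w)) ≤ m (δ w) := by
        rw [← measure_A (hn w) (b w) (hδ w hw)]
        exact measureReal_mono inter_subset_right
      have h2 : 0 ≤ m (δ v) * m (δ w) := mul_nonneg hmv hmw
      have h3 : 0 ≤ m (δ w) / n w := by positivity
      linarith
  rcases le_total (n v) (n w) with h | h
  · have h1 := hle v w hv hw h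
    have h2 := cb_nonneg s n δ hδ hv (v := w)
    linarith
  · have h1 := hle w v hw hv h
    have h2 := cb_nonneg s n δ hδ hw (v := v)
    rw [inter_comm, mul_comm]
    linarith

theorem integrable_disc_mul (v w : V) : Integrable
    (fun x : UnitAddCircle => (ind n b δ v x - m (δ v)) * (ind n b δ w x - m (δ w))) := by
  have h1 : Integrable (fun x => ind n b δ v x * ind n b δ w x)
      (volume : Measure UnitAddCircle) := by
    simp only [ind_mul]
    exact (integrable_const _).indicator ((measurableSet_A _ _ _).inter (measurableSet_A _ _ _))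
  have h2 : Integrable (fun x => m (δ w) * ind n b δ v x) (volume : Measure UnitAddCircle) :=
    (integrable_ind n b δ v).const_mul _
  have h3 : Integrable (fun x => m (δ v) * ind n b δ w x) (volume : Measure UnitAddCircle) :=
    (integrable_ind n b δ w).const_mul _
  have e : (fun x : UnitAddCircle => (ind n b δ v x - m (δ v)) * (ind n b δ w x - m (δ w))) =
      fun x => ind n b δ v x * ind n b δ w x - m (δ w) * ind n b δ v x -
        m (δ v) * ind n b δ w x + m (δ v) * m (δ w) := by
    funext x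
    ring
  rw [e]
  exact ((h1.sub h2).sub h3).add (integrable_const _)

theorem disc_sq (x : UnitAddCircle) : disc s n a b δ x ^ 2 =
    ∑ v ∈ s, ∑ w ∈ s, a v * a w * ((ind n b δ v x - m (δ v)) * (ind n b δ w x - m (δ w))) := by
  unfold disc
  rw [sq, Finset.sum_mul_sum]
  exact Finset.sum_congr rfl fun v _ => Finset.sum_congr rfl fun w _ => by ring

theorem integrable_disc_sq : Integrable fun x : UnitAddCircle => disc s n a b δ x ^ 2 := by
  simp only [disc_sq]
  exact integrable_finsetSum _ fun v _ => integrable_finsetSum _ fun w _ =>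
    (integrable_disc_mul n b δ v w).const_mul _

open Classical in
/-- **The variance.** -/
theorem variance (hn : ∀ v, n v ≠ 0) (ha0 : ∀ v, 0 ≤ a v) (ha1 : ∀ v, a v ≤ 1)
    (hδ : ∀ v ∈ s, 0 ≤ δ v) (d : ℕ)
    (h1 : ∀ w ∈ s, (s.filter fun v => n v ≤ n w).card ≤ d * n w)
    (h2 : ∀ w ∈ s, (s.filter fun v => ¬ (n v).Coprime (n w)).card ≤ d) :
    ∫ x : UnitAddCircle, disc s n a b δ x ^ 2 ≤ 4 * d * ∑ v ∈ s, m (δ v) := by
  simp only [disc_sq]
  rw [integral_finsetSum _ fun v _ => integrable_finsetSum _ fun w _ =>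
    (integrable_disc_mul n b δ v w).const_mul _]
  have e1 : ∀ v ∈ s, ∫ x : UnitAddCircle, ∑ w ∈ s, a v * a w *
      ((ind n b δ v x - m (δ v)) * (ind n b δ w x - m (δ w))) =
      ∑ w ∈ s, a v * a w * ((volume : Measure UnitAddCircle).real
        (A (n v) (b v) (δ v) ∩ A (n w) (b w) (δ w)) - m (δ v) * m (δ w)) := by
    intro v hv
    rw [integral_finsetSum _ fun w _ => (integrable_disc_mul n b δ v w).const_mul _]
    refine Finset.sum_congr rfl fun w hw => ?_
    rw [integral_const_mul, cov_eq s n b δ hn hδ hv hw]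
  rw [Finset.sum_congr rfl e1]
  have h3 : ∑ v ∈ s, ∑ w ∈ s, a v * a w * ((volume : Measure UnitAddCircle).real
      (A (n v) (b v) (δ v) ∩ A (n w) (b w) (δ w)) - m (δ v) * m (δ w)) ≤
      ∑ v ∈ s, ∑ w ∈ s, (cb n δ v w + cb n δ w v) := by
    refine Finset.sum_le_sum fun v hv => Finset.sum_le_sum fun w hw => ?_
    have h4 := cov_le s n b δ hn hδ hv hw
    have h5 : 0 ≤ cb n δ v w + cb n δ w v :=
      add_nonneg (cb_nonneg s n δ hδ hw) (cb_nonneg s n δ hδ hv)
    calc _ ≤ a v * a w * (cb n δ v w + cb n δ w v) :=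
          mul_le_mul_of_nonneg_left h4 (mul_nonneg (ha0 v) (ha0 w))
      _ ≤ 1 * (cb n δ v w + cb n δ w v) :=
          mul_le_mul_of_nonneg_right (mul_le_one₀ (ha1 v) (ha0 w) (ha1 w)) h5
      _ = _ := one_mul _
  refine h3.trans ?_
  have h4 : ∑ v ∈ s, ∑ w ∈ s, (cb n δ v w + cb n δ w v) = 2 * ∑ w ∈ s, ∑ v ∈ s, cb n δ v w := by
    simp only [Finset.sum_add_distrib]
    rw [Finset.sum_comm (f := fun v w => cb n δ v w)]
    ring
  rw [h4]
  have h5 : ∀ w ∈ s, ∑ v ∈ s, cb n δ v w ≤ 2 * d * m (δ w) := by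
    intro w hw
    have hmw := m_nonneg (hδ w hw)
    have hnw : (0 : ℝ) < n w := by exact_mod_cast Nat.pos_of_ne_zero (hn w)
    have h6 : ∀ v ∈ s, cb n δ v w ≤ (if n v ≤ n w then m (δ w) / n w else 0) +
        (if ¬ (n v).Coprime (n w) then m (δ w) else 0) := by
      intro v _
      unfold cb
      by_cases hvw : n v ≤ n w
      · rw [if_pos hvw, if_pos hvw]
        by_cases hc : (n v).Coprime (n w)
        · rw [if_pos hc, if_neg (not_not.2 hc)]
        · rw [if_neg hc, if_pos hc]
      · rw [if_neg hvw, if_neg hvw, zero_add]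
        split_ifs <;> linarith
    refine (Finset.sum_le_sum h6).trans ?_
    rw [Finset.sum_add_distrib, ← Finset.sum_filter, ← Finset.sum_filter, Finset.sum_const,
      Finset.sum_const, nsmul_eq_mul, nsmul_eq_mul]
    have h7 : ((s.filter fun v => n v ≤ n w).card : ℝ) ≤ d * n w := by exact_mod_cast h1 w hw
    have h8 : ((s.filter fun v => ¬ (n v).Coprime (n w)).card : ℝ) ≤ d := by
      exact_mod_cast h2 w hw
    have h9 : ((s.filter fun v => n v ≤ n w).card : ℝ) * (m (δ w) / n w) ≤ d * m (δ w) := by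
      calc _ ≤ (d * n w : ℝ) * (m (δ w) / n w) :=
            mul_le_mul_of_nonneg_right h7 (by positivity)
        _ = d * m (δ w) := by field_simp
    have h10 : ((s.filter fun v => ¬ (n v).Coprime (n w)).card : ℝ) * m (δ w) ≤ d * m (δ w) :=
      mul_le_mul_of_nonneg_right h8 hmw
    linarith
  calc 2 * ∑ w ∈ s, ∑ v ∈ s, cb n δ v w ≤ 2 * ∑ w ∈ s, 2 * d * m (δ w) := by
        have := Finset.sum_le_sum h5
        linarith
    _ = 4 * d * ∑ v ∈ s, m (δ v) := by rw [← Finset.mul_sum]; ring

open Classical in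
/-- **The inequality of Chebyshev.** -/
theorem cheb (hn : ∀ v, n v ≠ 0) (ha0 : ∀ v, 0 ≤ a v) (ha1 : ∀ v, a v ≤ 1)
    (hδ : ∀ v ∈ s, 0 ≤ δ v) (d : ℕ)
    (h1 : ∀ w ∈ s, (s.filter fun v => n v ≤ n w).card ≤ d * n w)
    (h2 : ∀ w ∈ s, (s.filter fun v => ¬ (n v).Coprime (n w)).card ≤ d) {lam : ℝ} (hlam : 0 < lam) :
    (volume : Measure UnitAddCircle).real {x | lam ≤ |disc s n a b δ x|} ≤
      4 * d * (∑ v ∈ s, m (δ v)) / lam ^ 2 := by
  have h3 := variance s n a b δ hn ha0 ha1 hδ d h1 h2
  have h4 := mul_meas_ge_le_integral_of_nonneg (μ := (volume : Measure UnitAddCircle))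
    (f := fun x => disc s n a b δ x ^ 2) (Filter.Eventually.of_forall fun x => sq_nonneg _)
    (integrable_disc_sq s n a b δ) (lam ^ 2)
  have h5 : {x : UnitAddCircle | lam ≤ |disc s n a b δ x|} =
      {x | lam ^ 2 ≤ disc s n a b δ x ^ 2} := by
    ext x
    simp only [mem_ofPred_eq]
    rw [← sq_abs (disc s n a b δ x), sq_le_sq₀ hlam.le (abs_nonneg _)]
  rw [h5, le_div_iff₀ (by positivity)]
  linarith

theorem measurable_disc : Measurable (disc s n a b δ) := by
  unfold disc
  refine Finset.measurable_sum _ fun v _ => ?_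
  unfold ind
  exact ((measurable_const.indicator (measurableSet_A _ _ _)).sub_const _).const_mul _

end

end Pool.Agent.H419.SP
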