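import Pool.Agent.H419.BS.Sum
import Pool.Agent.H419.SP.Var
import Pool.Agent.H419.SP.Cells

/-! The exceptional sets for the primes of a number field. -/

set_option autoImplicit false
set_option linter.unusedSectionVars false

namespace Pool.Agent.H419.SP

open NumberField IsDedekindDomain Filter Topology MeasureTheory
open Pool.Agent.W540.BE (upto nm mem_upto two_le_nm)
open Pool.Agent.Helper644_ST (card_ratio card_pos_ev)
open Pool.Agent.H419.BS (U U_le U_mono U_atTop pnt)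
open scoped ENNReal

variable {K : Type} [Field K] [NumberField K]

theorem nm_ne (v : HeightOneSpectrum (𝓞 K)) : nm K v ≠ 0 := by
  have := two_le_nm v
  omega

/-- the norm of a prime is a power of the prime number below it -/
theorem nm_pow (v : HeightOneSpectrum (𝓞 K)) :
    ∃ (p k : ℕ), p.Prime ∧ nm K v = p ^ k ∧ (p : 𝓞 K) ∈ v.asIdeal := by
  have : v.asIdeal.IsMaximal := v.isMaximal
  let _ := Ideal.Quotient.field v.asIdeal
  have : Finite (𝓞 K ⧸ v.asIdeal) := Ideal.finiteQuotientOfFreeOfNeBot _ v.ne_bot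
  cases nonempty_fintype (𝓞 K ⧸ v.asIdeal)
  obtain ⟨p, hc⟩ := CharP.exists (𝓞 K ⧸ v.asIdeal)
  obtain ⟨k, hp, hk⟩ := FiniteField.card (𝓞 K ⧸ v.asIdeal) p
  refine ⟨p, k, hp, ?_, ?_⟩
  · rw [nm, Ideal.absNorm_apply, Submodule.cardQuot_apply, ← hk]
    exact Nat.card_eq_fintype_card
  · rw [← Ideal.Quotient.eq_zero_iff_mem, map_natCast]
    exact CharP.cast_eq_zero _ _

open Classical in
theorem card_noncoprime (N : ℕ) (w : HeightOneSpectrum (𝓞 K)) :
    ((upto K N).filter fun v => ¬ (nm K v).Coprime (nm K w)).card ≤ Module.finrank ℚ K := by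
  obtain ⟨p, k, hp, hpw, -⟩ := nm_pow w
  have h := Pool.Agent.W352.ChAbs.over_le (K := K) p hp
  have hsub : (((upto K N).filter fun v => ¬ (nm K v).Coprime (nm K w) :
      Finset (HeightOneSpectrum (𝓞 K))) : Set (HeightOneSpectrum (𝓞 K))) ⊆
      {v | (p : 𝓞 K) ∈ v.asIdeal} := by
    intro v hv
    rw [Finset.mem_coe, Finset.mem_filter] at hv
    obtain ⟨p', k', hp', hpv, hmem⟩ := nm_pow v
    have h2 : p' = p := by
      by_contra hne
      apply hv.2
      rw [hpv, hpw]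
      exact Nat.Coprime.pow _ _ ((Nat.coprime_primes hp' hp).2 hne)
    rw [← h2]
    exact hmem
  have h1 := Set.ncard_le_ncard hsub h.1
  rw [Set.ncard_coe_finset] at h1
  exact h1.trans h.2

open Classical in
theorem card_le_norm (N : ℕ) (w : HeightOneSpectrum (𝓞 K)) :
    ((upto K N).filter fun v => nm K v ≤ nm K w).card ≤ Module.finrank ℚ K * nm K w := by
  have h1 : ((upto K N).filter fun v => nm K v ≤ nm K w).card ≤ (upto K (nm K w)).card := by
    refine Finset.card_le_card fun v hv => ?_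
    rw [Finset.mem_filter] at hv
    exact mem_upto.2 hv.2
  have h2 := U_le (K := K) (nm K w)
  unfold U at h2
  have h3 : (upto K (nm K w)).card ≤ Module.finrank ℚ K * nm K w := by exact_mod_cast h2
  exact h1.trans h3

section

variable (τ : ℝ)

/-- the radius -/
noncomputable def rad (v : HeightOneSpectrum (𝓞 K)) : ℝ := (nm K v : ℝ) ^ (-τ)

variable (K) in
/-- the expected number of primes -/
noncomputable def MM (N : ℕ) : ℝ := ∑ v ∈ upto K N, m (rad τ v)

variable (a : HeightOneSpectrum (𝓞 K) → ℝ) (b : HeightOneSpectrum (𝓞 K) → UnitAddCircle)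

/-- the weighted number of solutions -/
noncomputable def SS (N : ℕ) (α : ℝ) : ℝ :=
  ∑ v ∈ upto K N, a v * ind (nm K) b (rad τ) v (α : UnitAddCircle)

/-- the expected value -/
noncomputable def AA (N : ℕ) : ℝ := ∑ v ∈ upto K N, a v * m (rad τ v)

variable {τ}

theorem rad_pos (v : HeightOneSpectrum (𝓞 K)) : 0 < rad τ v := by
  have : 0 < (nm K v : ℝ) := by exact_mod_cast Nat.pos_of_ne_zero (nm_ne v)
  unfold rad
  positivity

theorem rad_le_one (h0 : 0 ≤ τ) (v : HeightOneSpectrum (𝓞 K)) : rad τ v ≤ 1 := by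
  have : (1 : ℝ) ≤ (nm K v : ℝ) := by exact_mod_cast Nat.pos_of_ne_zero (nm_ne v)
  unfold rad
  exact Real.rpow_le_one_of_one_le_of_nonpos this (by linarith)

theorem rad_ge (h0 : 0 ≤ τ) {N : ℕ} {v : HeightOneSpectrum (𝓞 K)} (hv : v ∈ upto K N) :
    (N : ℝ) ^ (-τ) ≤ rad τ v := by
  have h1 : (0 : ℝ) < (nm K v : ℝ) := by exact_mod_cast Nat.pos_of_ne_zero (nm_ne v)
  have h2 : (nm K v : ℝ) ≤ N := by exact_mod_cast mem_upto.1 hv
  unfold rad
  exact Real.rpow_le_rpow_of_nonpos h1 h2 (by linarith)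

theorem MM_mono {M N : ℕ} (h : M ≤ N) : MM K τ M ≤ MM K τ N := by
  unfold MM
  refine Finset.sum_le_sum_of_subset_of_nonneg
    (fun v hv => mem_upto.2 ((mem_upto.1 hv).trans h)) fun v _ _ => m_nonneg (rad_pos v).le

theorem MM_nonneg (N : ℕ) : 0 ≤ MM K τ N :=
  Finset.sum_nonneg fun v _ => m_nonneg (rad_pos v).le

theorem MM_le_U (N : ℕ) : MM K τ N ≤ U K N := by
  unfold MM U
  calc ∑ v ∈ upto K N, m (rad τ v) ≤ ∑ _v ∈ upto K N, (1 : ℝ) :=
        Finset.sum_le_sum fun v _ => m_le_one _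
    _ = _ := by simp

theorem MM_ge (h0 : 0 ≤ τ) {N : ℕ} (hN : 0 < N) : U K N * (N : ℝ) ^ (-τ) ≤ MM K τ N := by
  have hN1 : (1 : ℝ) ≤ N := by exact_mod_cast hN
  have h1 : (N : ℝ) ^ (-τ) ≤ 1 := Real.rpow_le_one_of_one_le_of_nonpos hN1 (by linarith)
  have h2 : 0 ≤ (N : ℝ) ^ (-τ) := by positivity
  unfold MM U
  rw [← nsmul_eq_mul, ← Finset.sum_const]
  refine Finset.sum_le_sum fun v hv => ?_
  have h3 := rad_ge h0 hv
  unfold m
  refine le_min h1 ?_
  linarith

/-- the growth of the expected number -/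
theorem growth (h0 : 0 ≤ τ) {κ : ℝ} (hκ : κ < 1 - τ) : ∀ᶠ N : ℕ in atTop,
    (N : ℝ) ^ κ ≤ MM K τ N := by
  have hpi := (pnt.eventually_const_lt (show (1 / 2 : ℝ) < 1 by norm_num)).and
    ((card_ratio (F := K)).eventually_const_lt (show (1 / 2 : ℝ) < 1 by norm_num))
  have hε : 0 < 1 - τ - κ := by linarith
  have hlog : ∀ᶠ N : ℕ in atTop, Real.log N ≤ 1 / 4 * (N : ℝ) ^ (1 - τ - κ) := by
    have h := (isLittleO_log_rpow_atTop hε).bound (show (0 : ℝ) < 1 / 4 by norm_num)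
    have h' := tendsto_natCast_atTop_atTop.eventually h
    filter_upwards [h', eventually_ge_atTop 1] with N hN hN1
    have hN1' : (1 : ℝ) ≤ N := by exact_mod_cast hN1
    rw [Real.norm_of_nonneg (Real.log_nonneg hN1'), Real.norm_of_nonneg (by positivity)] at hN
    exact hN
  filter_upwards [hpi, hlog, eventually_ge_atTop 3] with N ⟨h1, h2⟩ h3 hN3
  have hN : (3 : ℝ) ≤ N := by exact_mod_cast hN3
  have hN0 : (0 : ℝ) < N := by linarith
  have hlogpos : 0 < Real.log N := Real.log_pos (by linarith)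
  have hpip : 0 < (Nat.primeCounting N : ℝ) := by
    by_contra hcon
    have h4 : (Nat.primeCounting N : ℝ) = 0 := le_antisymm (not_lt.1 hcon) (by positivity)
    rw [h4, div_zero] at h2
    norm_num at h2
  rw [lt_div_iff₀ hpip] at h2
  rw [lt_div_iff₀ hN0] at h1
  have h4 : (N : ℝ) / (4 * Real.log N) ≤ U K N := by
    rw [div_le_iff₀ (by positivity)]
    have h5 : 1 / 2 * (Nat.primeCounting N : ℝ) * (4 * Real.log N) ≤
        U K N * (4 * Real.log N) := mul_le_mul_of_nonneg_right h2.le (by positivity)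
    linarith
  refine le_trans ?_ (MM_ge h0 (by omega))
  have h5 : (N : ℝ) ^ κ = (N : ℝ) ^ (1 : ℝ) * (N : ℝ) ^ (-τ) * ((N : ℝ) ^ (1 - τ - κ))⁻¹ := by
    rw [← Real.rpow_neg hN0.le, ← Real.rpow_add hN0, ← Real.rpow_add hN0]
    congr 1
    ring
  rw [h5, Real.rpow_one]
  have h6 : ((N : ℝ) ^ (1 - τ - κ))⁻¹ ≤ (4 * Real.log N)⁻¹ := by
    refine inv_anti₀ (by positivity) ?_
    linarith
  calc (N : ℝ) * (N : ℝ) ^ (-τ) * ((N : ℝ) ^ (1 - τ - κ))⁻¹ ≤
        (N : ℝ) * (N : ℝ) ^ (-τ) * (4 * Real.log N)⁻¹ :=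
        mul_le_mul_of_nonneg_left h6 (by positivity)
    _ = (N : ℝ) / (4 * Real.log N) * (N : ℝ) ^ (-τ) := by rw [div_eq_mul_inv]; ring
    _ ≤ _ := mul_le_mul_of_nonneg_right h4 (by positivity)

theorem MM_atTop (h0 : 0 ≤ τ) (h1 : τ < 1) : Tendsto (MM K τ) atTop atTop := by
  have h2 := growth (K := K) h0 (κ := (1 - τ) / 2) (by linarith)
  have h3 : Tendsto (fun N : ℕ => (N : ℝ) ^ ((1 - τ) / 2)) atTop atTop :=
    (tendsto_rpow_atTop (by linarith)).comp tendsto_natCast_atTop_atTop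
  exact tendsto_atTop_mono' _ h2 h3

/-! ### Stability -/

theorem norm_coe_le (y : ℝ) : ‖(y : UnitAddCircle)‖ ≤ |y| := by
  rw [UnitAddCircle.norm_eq]
  simpa using round_le y 0

theorem norm_shift (n : ℕ) (c : UnitAddCircle) (α α' : ℝ) :
    ‖n • (α' : UnitAddCircle) - c‖ ≤ ‖n • (α : UnitAddCircle) - c‖ + n * |α' - α| := by
  have e : n • (α' : UnitAddCircle) - c = (n • (α : UnitAddCircle) - c) +
      ((n * (α' - α) : ℝ) : UnitAddCircle) := by
    have e1 : ((n * (α' - α) : ℝ) : UnitAddCircle) =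
        n • (α' : UnitAddCircle) - n • (α : UnitAddCircle) := by
      rw [← nsmul_eq_mul, AddCircle.coe_nsmul, AddCircle.coe_sub, nsmul_sub]
    rw [e1]
    abel
  rw [e]
  refine (norm_add_le _ _).trans ?_
  have h1 := norm_coe_le (n * (α' - α))
  rw [abs_mul, Nat.abs_cast] at h1
  linarith

theorem ind_le_one {V : Type} (n : V → ℕ) (b : V → UnitAddCircle) (δ : V → ℝ) (v : V)
    (x : UnitAddCircle) : ind n b δ v x ≤ 1 := by
  unfold ind
  exact Set.indicator_le_self' (fun _ _ => zero_le_one) x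

theorem ind_nonneg {V : Type} (n : V → ℕ) (b : V → UnitAddCircle) (δ : V → ℝ) (v : V)
    (x : UnitAddCircle) : 0 ≤ ind n b δ v x := by
  unfold ind
  exact Set.indicator_nonneg (fun _ _ => zero_le_one) x

theorem ind_shift {V : Type} (n : V → ℕ) (b : V → UnitAddCircle) (δ δ' : V → ℝ) (v : V)
    {α α' : ℝ} (h : δ v + n v * |α' - α| ≤ δ' v) :
    ind n b δ v (α : UnitAddCircle) ≤ ind n b δ' v (α' : UnitAddCircle) := by
  unfold ind
  by_cases hx : (α : UnitAddCircle) ∈ A (n v) (b v) (δ v)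
  · have hx' : (α' : UnitAddCircle) ∈ A (n v) (b v) (δ' v) := by
      have h1 : ‖n v • (α : UnitAddCircle) - b v‖ ≤ δ v := hx
      have h2 := norm_shift (n v) (b v) α α'
      change ‖n v • (α' : UnitAddCircle) - b v‖ ≤ δ' v
      linarith
    rw [Set.indicator_of_mem hx, Set.indicator_of_mem hx']
  · rw [Set.indicator_of_notMem hx]
    exact Set.indicator_nonneg (fun _ _ => zero_le_one) _

variable (τ) in
/-- the scale of stability -/
noncomputable def rho (η : ℝ) (N : ℕ) : ℝ := η / 4 * (N : ℝ) ^ (-(1 + τ))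

variable (τ) in
/-- the changed radii -/
noncomputable def rad' (η : ℝ) (N : ℕ) (σ : ℝ) (v : HeightOneSpectrum (𝓞 K)) : ℝ :=
  rad τ v + σ * (nm K v * rho τ η N)

theorem shift_le {η : ℝ} (hη : 0 < η) {N : ℕ} (hN : 0 < N) {v : HeightOneSpectrum (𝓞 K)}
    (hv : v ∈ upto K N) : nm K v * rho τ η N ≤ η / 4 * (N : ℝ) ^ (-τ) := by
  have hN0 : (0 : ℝ) < N := by exact_mod_cast hN
  have h2 : (nm K v : ℝ) ≤ N := by exact_mod_cast mem_upto.1 hv
  unfold rho
  have e : (N : ℝ) ^ (-τ) = N * (N : ℝ) ^ (-(1 + τ)) := by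
    nth_rewrite 2 [← Real.rpow_one (N : ℝ)]
    rw [← Real.rpow_add hN0]
    congr 1
    ring
  rw [e]
  calc (nm K v : ℝ) * (η / 4 * (N : ℝ) ^ (-(1 + τ))) ≤ N * (η / 4 * (N : ℝ) ^ (-(1 + τ))) :=
        mul_le_mul_of_nonneg_right h2 (by positivity)
    _ = _ := by ring

theorem rho_pos {η : ℝ} (hη : 0 < η) {N : ℕ} (hN : 0 < N) : 0 < rho τ η N := by
  have hN0 : (0 : ℝ) < N := by exact_mod_cast hN
  unfold rho
  positivity

theorem rad'_nonneg (h0 : 0 ≤ τ) {η : ℝ} (hη : 0 < η) (hη1 : η ≤ 1) {N : ℕ} (hN : 0 < N) {σ : ℝ}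
    (hσ : |σ| ≤ 1) {v : HeightOneSpectrum (𝓞 K)} (hv : v ∈ upto K N) : 0 ≤ rad' τ η N σ v := by
  have h1 := shift_le (τ := τ) hη hN hv
  have h2 := rad_ge h0 hv
  have hN0 : (0 : ℝ) < N := by exact_mod_cast hN
  have h3 : 0 < (N : ℝ) ^ (-τ) := by positivity
  have h4 : 0 ≤ (nm K v : ℝ) * rho τ η N := mul_nonneg (by positivity) (rho_pos hη hN).le
  have h5 : -(nm K v * rho τ η N) ≤ σ * (nm K v * rho τ η N) := by
    have := abs_le.1 hσ
    nlinarith [this.1]
  unfold rad'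
  nlinarith

/-- the sum of the changed measures -/
theorem sum_m_diff (h0 : 0 ≤ τ) {η : ℝ} (hη : 0 < η) {N : ℕ} (hN : 0 < N) :
    ∑ v ∈ upto K N, 2 * (nm K v * rho τ η N) ≤ η / 2 * MM K τ N := by
  have h1 : ∑ v ∈ upto K N, 2 * (nm K v * rho τ η N) ≤
      ∑ _v ∈ upto K N, 2 * (η / 4 * (N : ℝ) ^ (-τ)) :=
    Finset.sum_le_sum fun v hv => by linarith [shift_le (τ := τ) hη hN hv]
  refine h1.trans ?_
  rw [Finset.sum_const, nsmul_eq_mul]
  have h2 := MM_ge (K := K) h0 hN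
  unfold U at h2
  have h3 : η / 2 * (((upto K N).card : ℝ) * (N : ℝ) ^ (-τ)) ≤ η / 2 * MM K τ N :=
    mul_le_mul_of_nonneg_left h2 (by positivity)
  linarith

/-- the exceptional set of the circle -/
def WW (τ : ℝ) (a : HeightOneSpectrum (𝓞 K) → ℝ) (b : HeightOneSpectrum (𝓞 K) → UnitAddCircle)
    (η : ℝ) (N : ℕ) (σ : ℝ) : Set UnitAddCircle :=
  {x | η / 2 * MM K τ N ≤ |disc (upto K N) (nm K) a b (rad' τ η N σ) x|}

theorem measurable_WW (η : ℝ) (N : ℕ) (σ : ℝ) : MeasurableSet (WW τ a b η N σ) :=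
  measurableSet_le measurable_const (measurable_disc _ _ _ _ _).abs

theorem measure_WW (ha0 : ∀ v, 0 ≤ a v) (ha1 : ∀ v, a v ≤ 1) (h0 : 0 ≤ τ) {η : ℝ} (hη : 0 < η)
    (hη1 : η ≤ 1) {N : ℕ} (hN : 0 < N) (hM : 0 < MM K τ N) {σ : ℝ} (hσ : |σ| ≤ 1) :
    (volume : Measure UnitAddCircle).real (WW τ a b η N σ) ≤
      32 * Module.finrank ℚ K / η ^ 2 / MM K τ N := by
  classical
  have h1 := cheb (upto K N) (nm K) a b (rad' τ η N σ) nm_ne ha0 ha1
    (fun v hv => rad'_nonneg h0 hη hη1 hN hσ hv) (Module.finrank ℚ K)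
    (fun w _ => card_le_norm N w) (fun w _ => card_noncoprime N w)
    (lam := η / 2 * MM K τ N) (by positivity)
  refine h1.trans ?_
  have h2 : ∑ v ∈ upto K N, m (rad' τ η N σ v) ≤ 2 * MM K τ N := by
    have h3 : ∑ v ∈ upto K N, m (rad' τ η N σ v) ≤
        ∑ v ∈ upto K N, (m (rad τ v) + 2 * (nm K v * rho τ η N)) := by
      refine Finset.sum_le_sum fun v _ => ?_
      have h4 : 0 ≤ (nm K v : ℝ) * rho τ η N := mul_nonneg (by positivity) (rho_pos hη hN).le
      refine le_trans (m_mono ?_) (m_add_le h4)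
      unfold rad'
      have := abs_le.1 hσ
      nlinarith [this.2]
    refine h3.trans ?_
    rw [Finset.sum_add_distrib]
    have h5 := sum_m_diff (K := K) h0 hη hN
    have h6 : MM K τ N = ∑ v ∈ upto K N, m (rad τ v) := rfl
    rw [← h6]
    nlinarith
  calc 4 * (Module.finrank ℚ K : ℝ) * (∑ v ∈ upto K N, m (rad' τ η N σ v)) /
        (η / 2 * MM K τ N) ^ 2 ≤
        4 * (Module.finrank ℚ K : ℝ) * (2 * MM K τ N) / (η / 2 * MM K τ N) ^ 2 := by
        gcongr
    _ = _ := by field_simp; ring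

/-- the bad sets -/
def BadP (τ : ℝ) (a : HeightOneSpectrum (𝓞 K) → ℝ) (b : HeightOneSpectrum (𝓞 K) → UnitAddCircle)
    (η : ℝ) (N : ℕ) : Set ℝ := {α | AA τ a N + η * MM K τ N ≤ SS τ a b N α}

/-- the bad sets -/
def BadM (τ : ℝ) (a : HeightOneSpectrum (𝓞 K) → ℝ) (b : HeightOneSpectrum (𝓞 K) → UnitAddCircle)
    (η : ℝ) (N : ℕ) : Set ℝ := {α | SS τ a b N α ≤ AA τ a N - η * MM K τ N}

theorem badP_stable (ha0 : ∀ v, 0 ≤ a v) (ha1 : ∀ v, a v ≤ 1) (h0 : 0 ≤ τ) {η : ℝ} (hη : 0 < η)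
    {N : ℕ} (hN : 0 < N) {x : ℝ} (hx : x ∈ BadP τ a b η N) {y : ℝ}
    (hxy : |y - x| ≤ rho τ η N) : (y : UnitAddCircle) ∈ WW τ a b η N 1 := by
  have h1 : AA τ a N + η * MM K τ N ≤ SS τ a b N x := hx
  change η / 2 * MM K τ N ≤ |disc (upto K N) (nm K) a b (rad' τ η N 1) (y : UnitAddCircle)|
  refine le_trans ?_ (le_abs_self _)
  have h2 : SS τ a b N x ≤
      ∑ v ∈ upto K N, a v * ind (nm K) b (rad' τ η N 1) v (y : UnitAddCircle) := by
    unfold SS
    refine Finset.sum_le_sum fun v _ => mul_le_mul_of_nonneg_left ?_ (ha0 v)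
    refine ind_shift _ _ _ _ _ ?_
    unfold rad'
    have : (nm K v : ℝ) * |y - x| ≤ nm K v * rho τ η N :=
      mul_le_mul_of_nonneg_left hxy (by positivity)
    linarith
  have h3 : ∑ v ∈ upto K N, a v * m (rad' τ η N 1 v) ≤ AA τ a N + η / 2 * MM K τ N := by
    have h4 : ∑ v ∈ upto K N, a v * m (rad' τ η N 1 v) ≤
        ∑ v ∈ upto K N, (a v * m (rad τ v) + 2 * (nm K v * rho τ η N)) := by
      refine Finset.sum_le_sum fun v _ => ?_
      have h5 : 0 ≤ (nm K v : ℝ) * rho τ η N := mul_nonneg (by positivity) (rho_pos hη hN).le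
      have h6 : m (rad' τ η N 1 v) ≤ m (rad τ v) + 2 * (nm K v * rho τ η N) := by
        unfold rad'
        rw [one_mul]
        exact m_add_le h5
      calc a v * m (rad' τ η N 1 v) ≤ a v * (m (rad τ v) + 2 * (nm K v * rho τ η N)) :=
            mul_le_mul_of_nonneg_left h6 (ha0 v)
        _ = a v * m (rad τ v) + a v * (2 * (nm K v * rho τ η N)) := by ring
        _ ≤ a v * m (rad τ v) + 1 * (2 * (nm K v * rho τ η N)) := by
            gcongr
            exact ha1 v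
        _ = _ := by ring
    refine h4.trans ?_
    rw [Finset.sum_add_distrib]
    have h5 := sum_m_diff (K := K) h0 hη hN
    unfold AA
    linarith
  unfold disc
  have e : ∑ v ∈ upto K N, a v * (ind (nm K) b (rad' τ η N 1) v (y : UnitAddCircle) -
      m (rad' τ η N 1 v)) =
      ∑ v ∈ upto K N, a v * ind (nm K) b (rad' τ η N 1) v (y : UnitAddCircle) -
      ∑ v ∈ upto K N, a v * m (rad' τ η N 1 v) := by
    rw [← Finset.sum_sub_distrib]
    exact Finset.sum_congr rfl fun v _ => by ring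
  rw [e]
  linarith

theorem badM_stable (ha0 : ∀ v, 0 ≤ a v) (ha1 : ∀ v, a v ≤ 1) (h0 : 0 ≤ τ) {η : ℝ} (hη : 0 < η)
    {N : ℕ} (hN : 0 < N) {x : ℝ} (hx : x ∈ BadM τ a b η N) {y : ℝ}
    (hxy : |y - x| ≤ rho τ η N) : (y : UnitAddCircle) ∈ WW τ a b η N (-1) := by
  have h1 : SS τ a b N x ≤ AA τ a N - η * MM K τ N := hx
  change η / 2 * MM K τ N ≤ |disc (upto K N) (nm K) a b (rad' τ η N (-1)) (y : UnitAddCircle)|
  refine le_trans ?_ (neg_le_abs _)
  have h2 : ∑ v ∈ upto K N, a v * ind (nm K) b (rad' τ η N (-1)) v (y : UnitAddCircle) ≤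
      SS τ a b N x := by
    unfold SS
    refine Finset.sum_le_sum fun v _ => mul_le_mul_of_nonneg_left ?_ (ha0 v)
    refine ind_shift _ _ _ _ _ ?_
    unfold rad'
    have : (nm K v : ℝ) * |x - y| ≤ nm K v * rho τ η N := by
      rw [abs_sub_comm]
      exact mul_le_mul_of_nonneg_left hxy (by positivity)
    linarith
  have h3 : AA τ a N - η / 2 * MM K τ N ≤ ∑ v ∈ upto K N, a v * m (rad' τ η N (-1) v) := by
    have h4 : ∑ v ∈ upto K N, a v * m (rad τ v) ≤
        ∑ v ∈ upto K N, (a v * m (rad' τ η N (-1) v) + 2 * (nm K v * rho τ η N)) := by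
      refine Finset.sum_le_sum fun v _ => ?_
      have h5 : 0 ≤ (nm K v : ℝ) * rho τ η N := mul_nonneg (by positivity) (rho_pos hη hN).le
      have h6 : m (rad τ v) ≤ m (rad' τ η N (-1) v) + 2 * (nm K v * rho τ η N) := by
        have e1 : rad τ v = rad' τ η N (-1) v + nm K v * rho τ η N := by
          unfold rad'
          ring
        nth_rewrite 1 [e1]
        exact m_add_le h5
      calc a v * m (rad τ v) ≤ a v * (m (rad' τ η N (-1) v) + 2 * (nm K v * rho τ η N)) :=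
            mul_le_mul_of_nonneg_left h6 (ha0 v)
        _ = a v * m (rad' τ η N (-1) v) + a v * (2 * (nm K v * rho τ η N)) := by ring
        _ ≤ a v * m (rad' τ η N (-1) v) + 1 * (2 * (nm K v * rho τ η N)) := by
            gcongr
            exact ha1 v
        _ = _ := by ring
    rw [Finset.sum_add_distrib] at h4
    have h5 := sum_m_diff (K := K) h0 hη hN
    unfold AA
    linarith
  unfold disc
  have e : ∑ v ∈ upto K N, a v * (ind (nm K) b (rad' τ η N (-1)) v (y : UnitAddCircle) -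
      m (rad' τ η N (-1) v)) =
      ∑ v ∈ upto K N, a v * ind (nm K) b (rad' τ η N (-1)) v (y : UnitAddCircle) -
      ∑ v ∈ upto K N, a v * m (rad' τ η N (-1) v) := by
    rw [← Finset.sum_sub_distrib]
    exact Finset.sum_congr rfl fun v _ => by ring
  rw [e]
  linarith

end

end Pool.Agent.H419.SP
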