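import Pool.Agent.H419.SP.Null
import Pool.Agent.H419.SP.Defs
import Pool.Agent.H419.BS.Law

/-! Typical numbers. -/

set_option autoImplicit false
set_option linter.unusedSectionVars false

namespace Pool.Agent.H419.SP

open NumberField IsDedekindDomain Filter Topology MeasureTheory
open Pool.Agent.W540.BE (upto nm mem_upto two_le_nm)
open Pool.Agent.H419.BS (U U_le U_mono U_atTop pnt q mean mean_eq)
open scoped ENNReal NNReal

variable {K : Type} [Field K] [NumberField K] {τ : ℝ}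

/-- the centres on the circle -/
noncomputable def cen (b : HeightOneSpectrum (𝓞 K) → ℝ) (v : HeightOneSpectrum (𝓞 K)) :
    UnitAddCircle := (b v : UnitAddCircle)

theorem near_iff (b : HeightOneSpectrum (𝓞 K) → ℝ) (α : ℝ) (v : HeightOneSpectrum (𝓞 K)) :
    Near τ b α v ↔ (α : UnitAddCircle) ∈ A (nm K v) (cen b v) (rad τ v) := by
  have e : nm K v • (α : UnitAddCircle) - cen b v = ((α * q v - b v : ℝ) : UnitAddCircle) := by
    unfold cen
    rw [← AddCircle.coe_nsmul, ← AddCircle.coe_sub, nsmul_eq_mul, mul_comm]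
    rfl
  have e2 : ((α : UnitAddCircle) ∈ A (nm K v) (cen b v) (rad τ v)) ↔
      |(α * q v - b v) - round (α * q v - b v)| ≤ (q v : ℝ) ^ (-τ) := by
    change ‖nm K v • (α : UnitAddCircle) - cen b v‖ ≤ rad τ v ↔ _
    rw [e, UnitAddCircle.norm_eq]
    rfl
  rw [e2]
  constructor
  · rintro ⟨l, hl⟩
    exact (round_le _ l).trans hl
  · intro h
    exact ⟨_, h⟩

open Classical in
theorem ind_eq (b : HeightOneSpectrum (𝓞 K) → ℝ) (α : ℝ) (v : HeightOneSpectrum (𝓞 K)) :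
    ind (nm K) (cen b) (rad τ) v (α : UnitAddCircle) = if Near τ b α v then 1 else 0 := by
  unfold ind
  by_cases h : Near τ b α v
  · rw [if_pos h, Set.indicator_of_mem ((near_iff b α v).1 h)]
  · rw [if_neg h, Set.indicator_of_notMem (fun h' => h ((near_iff b α v).2 h'))]

/-- the functions for which the discrepancy is small -/
def Good (τ : ℝ) (b : HeightOneSpectrum (𝓞 K) → ℝ) (α : ℝ) (φ : HeightOneSpectrum (𝓞 K) → ℝ) :
    Prop :=
  Tendsto (fun N => (SS τ φ (cen b) N α - AA τ φ N) / MM K τ N) atTop (𝓝 0)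

theorem good_lin {b : HeightOneSpectrum (𝓞 K) → ℝ} {α : ℝ} {φ ψ : HeightOneSpectrum (𝓞 K) → ℝ}
    (hφ : Good τ b α φ) (hψ : Good τ b α ψ) (c e : ℝ) :
    Good τ b α (fun v => c * φ v + e * ψ v) := by
  have h := (Tendsto.const_mul c hφ).add (Tendsto.const_mul e hψ)
  simp only [mul_zero, add_zero] at h
  refine h.congr fun N => ?_
  have e1 : SS τ (fun v => c * φ v + e * ψ v) (cen b) N α =
      c * SS τ φ (cen b) N α + e * SS τ ψ (cen b) N α := by
    unfold SS
    rw [Finset.mul_sum, Finset.mul_sum, ← Finset.sum_add_distrib]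
    exact Finset.sum_congr rfl fun v _ => by ring
  have e2 : AA τ (fun v => c * φ v + e * ψ v) N = c * AA τ φ N + e * AA τ ψ N := by
    unfold AA
    rw [Finset.mul_sum, Finset.mul_sum, ← Finset.sum_add_distrib]
    exact Finset.sum_congr rfl fun v _ => by ring
  rw [e1, e2]
  ring

theorem MM_pos_ev (h0 : 0 ≤ τ) (h1 : τ < 1) : ∀ᶠ N in atTop, 0 < MM K τ N :=
  (MM_atTop h0 h1).eventually_gt_atTop 0

theorem SS_le {b : HeightOneSpectrum (𝓞 K) → UnitAddCircle} {α : ℝ}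
    {φ : HeightOneSpectrum (𝓞 K) → ℝ} {c : ℝ} (hφ : ∀ v, |φ v| ≤ c) (N : ℕ) :
    |SS τ φ b N α| ≤ c * SS τ (fun _ => 1) b N α := by
  unfold SS
  rw [Finset.mul_sum]
  refine (Finset.abs_sum_le_sum_abs _ _).trans (Finset.sum_le_sum fun v _ => ?_)
  rw [abs_mul, abs_of_nonneg (ind_nonneg _ _ _ _ _), one_mul]
  exact mul_le_mul_of_nonneg_right (hφ v) (ind_nonneg _ _ _ _ _)

theorem AA_le {φ : HeightOneSpectrum (𝓞 K) → ℝ} {c : ℝ} (hφ : ∀ v, |φ v| ≤ c) (N : ℕ) :
    |AA τ φ N| ≤ c * MM K τ N := by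
  unfold AA MM
  rw [Finset.mul_sum]
  refine (Finset.abs_sum_le_sum_abs _ _).trans (Finset.sum_le_sum fun v _ => ?_)
  rw [abs_mul, abs_of_nonneg (m_nonneg (rad_pos v).le)]
  exact mul_le_mul_of_nonneg_right (hφ v) (m_nonneg (rad_pos v).le)

theorem AA_one (N : ℕ) : AA τ (fun _ : HeightOneSpectrum (𝓞 K) => 1) N = MM K τ N := by
  unfold AA MM
  simp

theorem ratio_one (h0 : 0 ≤ τ) (h1 : τ < 1) {b : HeightOneSpectrum (𝓞 K) → ℝ} {α : ℝ}
    (h : Good τ b α fun _ => 1) :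
    Tendsto (fun N => SS τ (fun _ => 1) (cen b) N α / MM K τ N) atTop (𝓝 1) := by
  have h2 := h.add_const 1
  rw [zero_add] at h2
  refine h2.congr' ?_
  filter_upwards [MM_pos_ev (K := K) h0 h1] with N hN
  rw [AA_one, sub_div, div_self hN.ne']
  ring

section

variable {X : Type} [TopologicalSpace X] [CompactSpace X] [T2Space X]
  [SecondCountableTopology X]

/-- the dense sequence -/
noncomputable def dsr (X : Type) [TopologicalSpace X] [CompactSpace X] [T2Space X]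
    [SecondCountableTopology X] : ℕ → C(X, ℝ) := TopologicalSpace.denseSeq C(X, ℝ)

/-- the normalised weights -/
noncomputable def wt (x : HeightOneSpectrum (𝓞 K) → X) (i : ℕ) (v : HeightOneSpectrum (𝓞 K)) : ℝ :=
  (dsr X i (x v) + ‖dsr X i‖) / (2 * ‖dsr X i‖ + 1)

theorem wt_nonneg (x : HeightOneSpectrum (𝓞 K) → X) (i : ℕ) (v : HeightOneSpectrum (𝓞 K)) :
    0 ≤ wt x i v := by
  have h1 : |dsr X i (x v)| ≤ ‖dsr X i‖ := by
    rw [← Real.norm_eq_abs]
    exact ContinuousMap.norm_coe_le_norm _ _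
  have h2 := abs_le.1 h1
  unfold wt
  have h3 : 0 ≤ ‖dsr X i‖ := norm_nonneg _
  exact div_nonneg (by linarith [h2.1]) (by linarith)

theorem wt_le_one (x : HeightOneSpectrum (𝓞 K) → X) (i : ℕ) (v : HeightOneSpectrum (𝓞 K)) :
    wt x i v ≤ 1 := by
  have h1 : |dsr X i (x v)| ≤ ‖dsr X i‖ := by
    rw [← Real.norm_eq_abs]
    exact ContinuousMap.norm_coe_le_norm _ _
  have h2 := abs_le.1 h1
  unfold wt
  have h3 : 0 ≤ ‖dsr X i‖ := norm_nonneg _
  rw [div_le_one (by linarith)]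
  linarith [h2.2]

/-- the bad set of one function and one level -/
def bad (τ : ℝ) (b : HeightOneSpectrum (𝓞 K) → ℝ) (φ : HeightOneSpectrum (𝓞 K) → ℝ) (k : ℕ) :
    Set ℝ :=
  {α | ∃ᶠ N : ℕ in atTop, 3 * (1 / ((k : ℝ) + 1)) * MM K τ N ≤ |SS τ φ (cen b) N α - AA τ φ N|}

theorem good_of_notMem (h0 : 0 ≤ τ) (h1 : τ < 1) {b : HeightOneSpectrum (𝓞 K) → ℝ}
    {φ : HeightOneSpectrum (𝓞 K) → ℝ} {α : ℝ} (h : ∀ k, α ∉ bad τ b φ k) : Good τ b α φ := by
  unfold Good
  rw [Metric.tendsto_atTop']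
  intro ε hε
  obtain ⟨k, hk⟩ := exists_nat_one_div_lt (show 0 < ε / 3 by positivity)
  have h3 : ∀ᶠ N : ℕ in atTop,
      |SS τ φ (cen b) N α - AA τ φ N| < 3 * (1 / ((k : ℝ) + 1)) * MM K τ N := by
    by_contra hcon
    refine h k (show ∃ᶠ N : ℕ in atTop, _ from fun h4 => ?_)
    exact hcon (h4.mono fun N hN => not_le.1 hN)
  obtain ⟨N₀, hN₀⟩ := eventually_atTop.1 (h3.and (MM_pos_ev (K := K) h0 h1))
  refine ⟨N₀, fun N hN => ?_⟩
  obtain ⟨h4, h5⟩ := hN₀ N hN.le
  rw [dist_zero_right, norm_div, Real.norm_eq_abs, Real.norm_of_nonneg h5.le, div_lt_iff₀ h5]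
  refine h4.trans ?_
  have : 3 * (1 / ((k : ℝ) + 1)) < ε := by linarith
  exact mul_lt_mul_of_pos_right this h5

/-- **The exceptional set.** -/
def Exc (τ : ℝ) (b : HeightOneSpectrum (𝓞 K) → ℝ) (x : HeightOneSpectrum (𝓞 K) → X) : Set ℝ :=
  (⋃ (i : ℕ) (k : ℕ), bad τ b (wt x i) k) ∪ ⋃ k : ℕ, bad τ b (fun _ => 1) k

theorem Exc_null (h0 : 0 ≤ τ) (h1 : τ < 1) (b : HeightOneSpectrum (𝓞 K) → ℝ)
    (x : HeightOneSpectrum (𝓞 K) → X) {s : ℝ} (hs : 2 * τ / (1 + τ) < s) (hs1 : s < 1) :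
    Measure.hausdorffMeasure s (Exc τ b x) = 0 := by
  have hk : ∀ k : ℕ, 1 / ((k : ℝ) + 1) ≤ 1 := by
    intro k
    rw [div_le_one (by positivity)]
    have : (0 : ℝ) ≤ k := by positivity
    linarith
  refine measure_union_null (measure_iUnion_null fun i => measure_iUnion_null fun k => ?_)
    (measure_iUnion_null fun k => ?_)
  · exact exc_null (wt x i) (cen b) (wt_nonneg x i) (wt_le_one x i) h0 h1 (by positivity) (hk k)
      hs hs1
  · exact exc_null (fun _ => 1) (cen b) (fun _ => zero_le_one) (fun _ => le_rfl) h0 h1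
      (by positivity) (hk k) hs hs1

theorem good_real (h0 : 0 ≤ τ) (h1 : τ < 1) {b : HeightOneSpectrum (𝓞 K) → ℝ}
    {x : HeightOneSpectrum (𝓞 K) → X} {α : ℝ} (hα : α ∉ Exc τ b x) (f : C(X, ℝ)) :
    Good τ b α (fun v => f (x v)) := by
  have hone : Good τ b α (fun _ => 1) := good_of_notMem h0 h1 fun k hk =>
    hα (Or.inr (Set.mem_iUnion.2 ⟨k, hk⟩))
  have hds : ∀ i, Good τ b α (fun v => dsr X i (x v)) := by
    intro i
    have h2 : Good τ b α (wt x i) := good_of_notMem h0 h1 fun k hk =>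
      hα (Or.inl (Set.mem_iUnion.2 ⟨i, Set.mem_iUnion.2 ⟨k, hk⟩⟩))
    have h3 := good_lin h2 hone (2 * ‖dsr X i‖ + 1) (-‖dsr X i‖)
    have e : (fun v => (2 * ‖dsr X i‖ + 1) * wt x i v + -‖dsr X i‖ * 1) =
        fun v => dsr X i (x v) := by
      funext v
      unfold wt
      have : 0 ≤ ‖dsr X i‖ := norm_nonneg _
      field_simp
      ring
    rwa [e] at h3
  -- approximation
  have hrat := ratio_one h0 h1 hone
  unfold Good
  rw [Metric.tendsto_atTop']
  intro ε hε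
  have hd : DenseRange (dsr X) := TopologicalSpace.denseRange_denseSeq _
  obtain ⟨i, hi⟩ := hd.exists_dist_lt f (show 0 < ε / 6 by positivity)
  have hle : ∀ v, |f (x v) - dsr X i (x v)| ≤ ε / 6 := by
    intro v
    have h2 : |(f - dsr X i) (x v)| ≤ ‖f - dsr X i‖ := by
      rw [← Real.norm_eq_abs]
      exact ContinuousMap.norm_coe_le_norm _ _
    rw [dist_eq_norm] at hi
    exact h2.trans hi.le
  have hev := (Metric.tendsto_nhds.1 (hds i)) (ε / 2) (by positivity)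
  obtain ⟨N₀, hN₀⟩ := eventually_atTop.1 ((hev.and
    (hrat.eventually_lt_const (show (1 : ℝ) < 2 by norm_num))).and (MM_pos_ev (K := K) h0 h1))
  refine ⟨N₀, fun N hN => ?_⟩
  obtain ⟨⟨h2, h3⟩, h4⟩ := hN₀ N hN.le
  rw [dist_zero_right] at h2 ⊢
  have e : (SS τ (fun v => f (x v)) (cen b) N α - AA τ (fun v => f (x v)) N) / MM K τ N =
      (SS τ (fun v => dsr X i (x v)) (cen b) N α - AA τ (fun v => dsr X i (x v)) N) / MM K τ N +
      (SS τ (fun v => f (x v) - dsr X i (x v)) (cen b) N α / MM K τ N -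
        AA τ (fun v => f (x v) - dsr X i (x v)) N / MM K τ N) := by
    have e1 : SS τ (fun v => f (x v) - dsr X i (x v)) (cen b) N α =
        SS τ (fun v => f (x v)) (cen b) N α - SS τ (fun v => dsr X i (x v)) (cen b) N α := by
      unfold SS
      rw [← Finset.sum_sub_distrib]
      exact Finset.sum_congr rfl fun v _ => by ring
    have e2 : AA τ (fun v => f (x v) - dsr X i (x v)) N =
        AA τ (fun v => f (x v)) N - AA τ (fun v => dsr X i (x v)) N := by
      unfold AA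
      rw [← Finset.sum_sub_distrib]
      exact Finset.sum_congr rfl fun v _ => by ring
    rw [e1, e2]
    ring
  rw [e]
  have h5 := SS_le (τ := τ) (b := cen b) (α := α) hle N
  have h6 := AA_le (τ := τ) hle N
  have h7 : |SS τ (fun v => f (x v) - dsr X i (x v)) (cen b) N α / MM K τ N| ≤ ε / 3 := by
    rw [abs_div, abs_of_pos h4, div_le_iff₀ h4]
    rw [div_lt_iff₀ h4] at h3
    calc _ ≤ ε / 6 * SS τ (fun _ => 1) (cen b) N α := h5
      _ ≤ ε / 6 * (2 * MM K τ N) := mul_le_mul_of_nonneg_left h3.le (by positivity)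
      _ = _ := by ring
  have h8 : |AA τ (fun v => f (x v) - dsr X i (x v)) N / MM K τ N| ≤ ε / 6 := by
    rw [abs_div, abs_of_pos h4, div_le_iff₀ h4]
    exact h6
  have h9 : |(SS τ (fun v => dsr X i (x v)) (cen b) N α - AA τ (fun v => dsr X i (x v)) N) /
      MM K τ N| < ε / 2 := h2
  rw [Real.norm_eq_abs]
  refine lt_of_le_of_lt (abs_add_le _ _) ?_
  have h10 := abs_sub (SS τ (fun v => f (x v) - dsr X i (x v)) (cen b) N α / MM K τ N)
    (AA τ (fun v => f (x v) - dsr X i (x v)) N / MM K τ N)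
  linarith

end

end Pool.Agent.H419.SP
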