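import Pool.Agent.H419.SP.Typ

/-! Weighted mean values. -/

set_option autoImplicit false
set_option linter.unusedSectionVars false

namespace Pool.Agent.H419.SP

open NumberField IsDedekindDomain Filter Topology MeasureTheory
open Pool.Agent.W540.BE (upto nm mem_upto two_le_nm)
open Pool.Agent.H419.BS (U U_le U_mono U_atTop pnt q mean mean_eq)
open scoped ENNReal NNReal

variable {K : Type} [Field K] [NumberField K] {τ : ℝ}

theorem finsum_upto {E' : Type} [AddCommMonoid E'] (φ : HeightOneSpectrum (𝓞 K) → E') (N : ℕ) :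
    ∑ᶠ v : {v : HeightOneSpectrum (𝓞 K) // q v ≤ N}, φ v.1 = ∑ v ∈ upto K N, φ v := by
  have hs : ∀ v, v ∈ upto K N ↔ q v ≤ N := fun v => mem_upto
  let e : {v : HeightOneSpectrum (𝓞 K) // q v ≤ N} ≃ (upto K N) :=
    Equiv.subtypeEquivRight fun v => (hs v).symm
  rw [← Finset.sum_coe_sort, ← finsum_eq_sum_of_fintype, ← finsum_comp_equiv e]
  rfl

theorem weight_eq (N : ℕ) : weight K τ N = ∑ v ∈ upto K N, rad τ v :=
  finsum_upto (fun v : HeightOneSpectrum (𝓞 K) => rad τ v) N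

/-- the weighted sum -/
noncomputable def WS (τ : ℝ) (φ : HeightOneSpectrum (𝓞 K) → ℂ) (N : ℕ) : ℂ :=
  ∑ v ∈ upto K N, (rad τ v : ℂ) * φ v

theorem wmean_eq (φ : HeightOneSpectrum (𝓞 K) → ℂ) (N : ℕ) :
    wmean τ φ N = WS τ φ N / (weight K τ N : ℂ) := by
  unfold wmean
  rw [finsum_upto (fun v => (((q v : ℝ) ^ (-τ) : ℝ) : ℂ) * φ v) N]
  rfl

/-- the primes for which the measure is not `2 q_v^{-τ}` have bounded norm -/
theorem exists_bound (h0 : 0 < τ) : ∃ N₀ : ℕ, ∀ v : HeightOneSpectrum (𝓞 K), N₀ < nm K v →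
    m (rad τ v) = 2 * rad τ v := by
  obtain ⟨N₀, hN₀⟩ := exists_nat_ge ((2 : ℝ) ^ (1 / τ))
  refine ⟨N₀, fun v hv => ?_⟩
  have h1 : (2 : ℝ) ^ (1 / τ) ≤ nm K v := hN₀.trans (by exact_mod_cast hv.le)
  have h2 : (2 : ℝ) ≤ (nm K v : ℝ) ^ τ := by
    calc (2 : ℝ) = ((2 : ℝ) ^ (1 / τ)) ^ τ := by
          rw [← Real.rpow_mul (by norm_num), one_div, inv_mul_cancel₀ h0.ne', Real.rpow_one]
      _ ≤ _ := Real.rpow_le_rpow (by positivity) h1 h0.le
  unfold m
  refine min_eq_right ?_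
  unfold rad
  rw [Real.rpow_neg (by positivity)]
  have h3 : ((nm K v : ℝ) ^ τ)⁻¹ ≤ 2⁻¹ := inv_anti₀ (by norm_num) h2
  linarith

/-- the difference of the two weights is bounded -/
theorem diff_bound (h0 : 0 < τ) : ∃ C : ℝ, 0 ≤ C ∧ ∀ (φ : HeightOneSpectrum (𝓞 K) → ℂ) (c : ℝ),
    0 ≤ c → (∀ v, ‖φ v‖ ≤ c) → ∀ N : ℕ,
    ‖2 * WS τ φ N - ∑ v ∈ upto K N, (m (rad τ v) : ℂ) * φ v‖ ≤ C * c := by
  classical
  obtain ⟨N₀, hN₀⟩ := exists_bound (K := K) h0
  refine ⟨∑ v ∈ upto K N₀, (2 * rad τ v + 1), Finset.sum_nonneg fun v _ => by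
    have := (rad_pos (τ := τ) v).le
    linarith, fun φ c hc hφ N => ?_⟩
  have e : 2 * WS τ φ N - ∑ v ∈ upto K N, (m (rad τ v) : ℂ) * φ v =
      ∑ v ∈ upto K N, ((2 * rad τ v - m (rad τ v) : ℝ) : ℂ) * φ v := by
    unfold WS
    rw [Finset.mul_sum, ← Finset.sum_sub_distrib]
    refine Finset.sum_congr rfl fun v _ => ?_
    push_cast
    ring
  rw [e]
  refine (norm_sum_le _ _).trans ?_
  rw [Finset.sum_mul]
  have h1 : ∀ v ∈ upto K N, v ∉ upto K N₀ →
      ‖((2 * rad τ v - m (rad τ v) : ℝ) : ℂ) * φ v‖ = 0 := by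
    intro v _ hv
    rw [mem_upto, not_le] at hv
    rw [hN₀ v hv]
    simp
  have h2 : ∑ v ∈ upto K N, ‖((2 * rad τ v - m (rad τ v) : ℝ) : ℂ) * φ v‖ =
      ∑ v ∈ (upto K N).filter (fun v => v ∈ upto K N₀),
        ‖((2 * rad τ v - m (rad τ v) : ℝ) : ℂ) * φ v‖ := by
    rw [Finset.sum_filter]
    refine Finset.sum_congr rfl fun v hv => ?_
    by_cases h : v ∈ upto K N₀
    · rw [if_pos h]
    · rw [if_neg h, h1 v hv h]
  rw [h2]
  have h3 : ∀ v, ‖((2 * rad τ v - m (rad τ v) : ℝ) : ℂ) * φ v‖ ≤ (2 * rad τ v + 1) * c := by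
    intro v
    rw [norm_mul, Complex.norm_real, Real.norm_eq_abs]
    have h4 := m_nonneg (rad_pos (τ := τ) v).le
    have h5 := m_le_one (rad τ v)
    have h6 := rad_pos (τ := τ) v
    have h7 : |2 * rad τ v - m (rad τ v)| ≤ 2 * rad τ v + 1 := by
      rw [abs_le]
      constructor <;> linarith
    exact mul_le_mul h7 (hφ v) (norm_nonneg _) (by linarith)
  refine (Finset.sum_le_sum fun v _ => h3 v).trans ?_
  refine Finset.sum_le_sum_of_subset_of_nonneg (fun v hv => (Finset.mem_filter.1 hv).2)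
    fun v _ _ => ?_
  have := (rad_pos (τ := τ) v).le
  exact mul_nonneg (by linarith) hc

theorem tend_div (h0 : 0 ≤ τ) (h1 : τ < 1) {f : ℕ → ℂ} {C : ℝ} (hf : ∀ N, ‖f N‖ ≤ C) :
    Tendsto (fun N => f N / (MM K τ N : ℂ)) atTop (𝓝 0) := by
  have h2 : Tendsto (fun N => C / MM K τ N) atTop (𝓝 0) :=
    (MM_atTop h0 h1).const_div_atTop C
  refine squeeze_zero_norm' ?_ h2
  filter_upwards [MM_pos_ev (K := K) h0 h1] with N hN
  rw [norm_div, Complex.norm_real, Real.norm_of_nonneg hN.le]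
  exact div_le_div_of_nonneg_right (hf N) hN.le

theorem weight_ratio (h0 : 0 < τ) (h1 : τ < 1) :
    Tendsto (fun N => 2 * weight K τ N / MM K τ N) atTop (𝓝 1) := by
  obtain ⟨C, hC0, hC⟩ := diff_bound (K := K) h0
  have h2 := tend_div (K := K) h0.le h1 (f := fun N =>
    2 * WS τ (fun _ : HeightOneSpectrum (𝓞 K) => 1) N -
    ∑ v ∈ upto K N, (m (rad τ v) : ℂ) * 1) (C := C * 1)
    (fun N => hC (fun _ => 1) 1 zero_le_one (fun _ => by simp) N)
  have h3 := (Complex.continuous_re.tendsto _).comp h2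
  rw [Complex.zero_re] at h3
  have h4 := h3.add_const 1
  rw [zero_add] at h4
  refine h4.congr' ?_
  filter_upwards [MM_pos_ev (K := K) h0.le h1] with N hN
  have e1 : (2 * WS τ (fun _ : HeightOneSpectrum (𝓞 K) => 1) N -
      ∑ v ∈ upto K N, (m (rad τ v) : ℂ) * 1) =
      ((2 * weight K τ N - MM K τ N : ℝ) : ℂ) := by
    unfold WS MM
    rw [weight_eq]
    push_cast
    simp
  simp only [Function.comp_apply]
  rw [e1, ← Complex.ofReal_div, Complex.ofReal_re, sub_div, div_self hN.ne']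
  ring

/-- the complex number of solutions -/
noncomputable def SC (τ : ℝ) (b : HeightOneSpectrum (𝓞 K) → ℝ) (α : ℝ)
    (φ : HeightOneSpectrum (𝓞 K) → ℂ) (N : ℕ) : ℂ :=
  ∑ v ∈ upto K N, (ind (nm K) (cen b) (rad τ) v (α : UnitAddCircle) : ℂ) * φ v

theorem SC_filter (b : HeightOneSpectrum (𝓞 K) → ℝ) (α : ℝ) (φ : HeightOneSpectrum (𝓞 K) → ℂ)
    (N : ℕ) [DecidablePred (Near τ b α)] :
    SC τ b α φ N = ∑ v ∈ (upto K N).filter (Near τ b α), φ v := by
  classical
  unfold SC
  rw [Finset.sum_filter]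
  refine Finset.sum_congr rfl fun v _ => ?_
  rw [ind_eq]
  by_cases h : Near τ b α v
  · simp [h]
  · simp [h]

theorem card_near (b : HeightOneSpectrum (𝓞 K) → ℝ) (α : ℝ) (N : ℕ) :
    (Nat.card {v : HeightOneSpectrum (𝓞 K) // Near τ b α v ∧ q v ≤ N} : ℝ) =
      SS τ (fun _ => 1) (cen b) N α := by
  classical
  have e : {v : HeightOneSpectrum (𝓞 K) // Near τ b α v ∧ q v ≤ N} ≃
      ((upto K N).filter fun v => Near τ b α v) :=
    Equiv.subtypeEquivRight fun v => by rw [Finset.mem_filter, mem_upto, and_comm]; rfl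
  rw [Nat.card_congr e, Nat.card_eq_fintype_card, Fintype.card_coe, Finset.card_filter]
  unfold SS
  push_cast
  refine Finset.sum_congr rfl fun v _ => ?_
  rw [ind_eq]
  by_cases h : Near τ b α v
  · simp [h]
  · simp [h]

theorem mean_near (b : HeightOneSpectrum (𝓞 K) → ℝ) (α : ℝ) (φ : HeightOneSpectrum (𝓞 K) → ℂ)
    (N : ℕ) : mean (Near τ b α) φ N = SC τ b α φ N / (SS τ (fun _ => 1) (cen b) N α : ℂ) := by
  classical
  rw [mean_eq, SC_filter]
  congr 1
  unfold SS
  rw [Finset.card_filter]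
  push_cast
  refine Finset.sum_congr rfl fun v _ => ?_
  rw [ind_eq]
  by_cases h : Near τ b α v
  · simp [h]
  · simp [h]

section

variable {X : Type} [TopologicalSpace X] [CompactSpace X] [T2Space X]
  [SecondCountableTopology X]

theorem good_complex (h0 : 0 ≤ τ) (h1 : τ < 1) {b : HeightOneSpectrum (𝓞 K) → ℝ}
    {x : HeightOneSpectrum (𝓞 K) → X} {α : ℝ} (hα : α ∉ Exc τ b x) {f : X → ℂ}
    (hf : Continuous f) :
    Tendsto (fun N => (SC τ b α (fun v => f (x v)) N -
      ∑ v ∈ upto K N, (m (rad τ v) : ℂ) * f (x v)) / (MM K τ N : ℂ)) atTop (𝓝 0) := by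
  have hre := good_real h0 h1 hα ⟨fun t => (f t).re, by fun_prop⟩
  have him := good_real h0 h1 hα ⟨fun t => (f t).im, by fun_prop⟩
  have h2 := (Complex.continuous_ofReal.tendsto _).comp hre
  have h3 := ((Complex.continuous_ofReal.tendsto _).comp him).const_mul Complex.I
  have h4 := h2.add h3
  simp only [Complex.ofReal_zero, mul_zero, add_zero] at h4
  refine h4.congr fun N => ?_
  simp only [Function.comp_apply, ContinuousMap.coe_mk]
  unfold SC SS AA
  push_cast
  rw [← mul_div_assoc, ← add_div]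
  congr 1
  rw [mul_sub, Finset.mul_sum, Finset.mul_sum]
  have e : ∀ v : HeightOneSpectrum (𝓞 K), f (x v) =
      ((f (x v)).re : ℂ) + ((f (x v)).im : ℂ) * Complex.I := fun v => (Complex.re_add_im _).symm
  have e1 : ∑ v ∈ upto K N, (ind (nm K) (cen b) (rad τ) v (α : UnitAddCircle) : ℂ) * f (x v) =
      ∑ v ∈ upto K N, (((f (x v)).re : ℂ) *
        (ind (nm K) (cen b) (rad τ) v (α : UnitAddCircle) : ℂ) +
        Complex.I * (((f (x v)).im : ℂ) *
          (ind (nm K) (cen b) (rad τ) v (α : UnitAddCircle) : ℂ))) := by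
    refine Finset.sum_congr rfl fun v _ => ?_
    nth_rewrite 1 [e v]
    ring
  have e2 : ∑ v ∈ upto K N, (m (rad τ v) : ℂ) * f (x v) =
      ∑ v ∈ upto K N, (((f (x v)).re : ℂ) * (m (rad τ v) : ℂ) +
        Complex.I * (((f (x v)).im : ℂ) * (m (rad τ v) : ℂ))) := by
    refine Finset.sum_congr rfl fun v _ => ?_
    nth_rewrite 1 [e v]
    ring
  rw [e1, e2, Finset.sum_add_distrib, Finset.sum_add_distrib]
  ring

theorem exists_bound_cont {f : X → ℂ} (hf : Continuous f) : ∃ c : ℝ, 0 ≤ c ∧ ∀ t, ‖f t‖ ≤ c := by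
  obtain ⟨C, hC⟩ := isCompact_univ.exists_bound_of_continuousOn hf.continuousOn
  exact ⟨max C 0, le_max_right _ _, fun t => (hC t (Set.mem_univ t)).trans (le_max_left _ _)⟩

/-- **Outside of the exceptional set all numbers are typical.** -/
theorem typical_of_notMem (h0 : 0 < τ) (h1 : τ < 1) {b : HeightOneSpectrum (𝓞 K) → ℝ}
    {x : HeightOneSpectrum (𝓞 K) → X} {α : ℝ} (hα : α ∉ Exc τ b x) : Typical τ b x α := by
  have hone : Good τ b α (fun _ => 1) := good_of_notMem h0.le h1 fun k hk =>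
    hα (Or.inr (Set.mem_iUnion.2 ⟨k, hk⟩))
  have hr1 := ratio_one h0.le h1 hone
  have hr2 := weight_ratio (K := K) h0 h1
  constructor
  · have h2 := hr1.div hr2 one_ne_zero
    rw [div_one] at h2
    refine h2.congr' ?_
    filter_upwards [MM_pos_ev (K := K) h0.le h1] with N hN
    rw [card_near, Pi.div_apply, div_div_div_cancel_right₀ hN.ne']
  · intro f hf
    obtain ⟨c, hc0, hc⟩ := exists_bound_cont hf
    have h2 := good_complex h0.le h1 hα hf
    obtain ⟨C, hC0, hC⟩ := diff_bound (K := K) h0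
    have h3 := tend_div (K := K) h0.le h1 (f := fun N => 2 * WS τ (fun v => f (x v)) N -
      ∑ v ∈ upto K N, (m (rad τ v) : ℂ) * f (x v)) (C := C * c)
      (fun N => hC _ c hc0 (fun v => hc _) N)
    -- the two quotients
    have hr1c : Tendsto (fun N => (SS τ (fun _ => 1) (cen b) N α : ℂ) / (MM K τ N : ℂ)) atTop
        (𝓝 1) := by
      have := (Complex.continuous_ofReal.tendsto _).comp hr1
      rw [Complex.ofReal_one] at this
      refine this.congr fun N => ?_
      simp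
    have hr2c : Tendsto (fun N => 2 * (weight K τ N : ℂ) / (MM K τ N : ℂ)) atTop (𝓝 1) := by
      have := (Complex.continuous_ofReal.tendsto _).comp hr2
      rw [Complex.ofReal_one] at this
      refine this.congr fun N => ?_
      simp
    -- u = SC / MM, v = 2 WS / MM
    have h4 := h2.sub h3
    rw [sub_zero] at h4
    have hbd : ∀ᶠ N in atTop, ‖2 * WS τ (fun v => f (x v)) N / (MM K τ N : ℂ)‖ ≤ 2 * c := by
      filter_upwards [MM_pos_ev (K := K) h0.le h1,
        hr2.eventually_lt_const (show (1 : ℝ) < 2 by norm_num)] with N hN hN2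
      rw [div_lt_iff₀ hN] at hN2
      rw [norm_div, Complex.norm_real, Real.norm_of_nonneg hN.le, div_le_iff₀ hN, norm_mul]
      have h5 : ‖WS τ (fun v => f (x v)) N‖ ≤ c * weight K τ N := by
        unfold WS
        rw [weight_eq, Finset.mul_sum]
        refine (norm_sum_le _ _).trans (Finset.sum_le_sum fun v _ => ?_)
        rw [norm_mul, Complex.norm_real, Real.norm_of_nonneg (rad_pos v).le, mul_comm]
        exact mul_le_mul_of_nonneg_right (hc _) (rad_pos v).le
      have h6 : ‖(2 : ℂ)‖ = 2 := by simp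
      rw [h6]
      nlinarith
    -- difference of the quotients
    have h5 : Tendsto (fun N => ((SC τ b α (fun v => f (x v)) N -
        ∑ v ∈ upto K N, (m (rad τ v) : ℂ) * f (x v)) / (MM K τ N : ℂ) -
        (2 * WS τ (fun v => f (x v)) N - ∑ v ∈ upto K N, (m (rad τ v) : ℂ) * f (x v)) /
          (MM K τ N : ℂ)) / ((SS τ (fun _ => 1) (cen b) N α : ℂ) / (MM K τ N : ℂ))) atTop
        (𝓝 0) := by
      have := h4.div hr1c one_ne_zero
      rwa [zero_div] at this
    have h6 : Tendsto (fun N => (2 * WS τ (fun v => f (x v)) N / (MM K τ N : ℂ)) *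
        (1 / ((SS τ (fun _ => 1) (cen b) N α : ℂ) / (MM K τ N : ℂ)) -
          1 / (2 * (weight K τ N : ℂ) / (MM K τ N : ℂ)))) atTop (𝓝 0) := by
      have h7 : Tendsto (fun N => 1 / ((SS τ (fun _ => 1) (cen b) N α : ℂ) / (MM K τ N : ℂ)) -
          1 / (2 * (weight K τ N : ℂ) / (MM K τ N : ℂ))) atTop (𝓝 0) := by
        have h8 := (tendsto_const_nhds (x := (1 : ℂ))).div hr1c one_ne_zero
        have h9 := (tendsto_const_nhds (x := (1 : ℂ))).div hr2c one_ne_zero
        have := h8.sub h9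
        rwa [sub_self] at this
      refine squeeze_zero_norm' (a := fun N => 2 * c *
        ‖1 / ((SS τ (fun _ => 1) (cen b) N α : ℂ) / (MM K τ N : ℂ)) -
          1 / (2 * (weight K τ N : ℂ) / (MM K τ N : ℂ))‖) ?_ ?_
      · filter_upwards [hbd] with N hN
        rw [norm_mul]
        exact mul_le_mul_of_nonneg_right hN (norm_nonneg _)
      · simpa using h7.norm.const_mul (2 * c)
    have h7 := h5.add h6
    rw [add_zero] at h7
    refine h7.congr' ?_
    filter_upwards [MM_pos_ev (K := K) h0.le h1, hr1.eventually_ne one_ne_zero,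
      hr2.eventually_ne one_ne_zero] with N hN hn1 hn2
    have hMc : (MM K τ N : ℂ) ≠ 0 := by exact_mod_cast hN.ne'
    have hSc : (SS τ (fun _ => 1) (cen b) N α : ℂ) ≠ 0 := by
      intro h
      apply hn1
      have : SS τ (fun _ => 1) (cen b) N α = 0 := by exact_mod_cast h
      rw [this, zero_div]
    have hWc : (weight K τ N : ℂ) ≠ 0 := by
      intro h
      apply hn2
      have : weight K τ N = 0 := by exact_mod_cast h
      rw [this, mul_zero, zero_div]
    rw [mean_near, wmean_eq]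
    field_simp
    ring

end

end Pool.Agent.H419.SP
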